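import Mathlib
import Pool.Agent.H789R2.FR.Defs
set_option autoImplicit false

/-!
# Project CY (helper720): Fourier restriction to the sphere on cylinders over fractal sets

`n = m + k`, `ι : ℝ^m → ℝ^n` and `κ : ℝ^k → ℝ^n` linear isometries with orthogonal images, `ν` a Borel
measure on `ℝ^k` with `ν (B(w,R)) ≤ A R^α` for `R ≥ 1`. Statements of the pieces.
-/

namespace Pool.Agent.N720.SL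

open MeasureTheory Set Metric Complex
open scoped ENNReal NNReal RealInnerProductSpace
open Pool.Agent.H789R2.FR (sg)

abbrev E (n : ℕ) := EuclideanSpace ℝ (Fin n)

/-- `e^{2πiθ}` -/
noncomputable def ex (θ : ℝ) : ℂ := Complex.exp ((2 * Real.pi * θ : ℝ) * Complex.I)

/-- `ν (B(w,R)) ≤ A R^α` for all `w` and all `R ≥ 1` -/
def Growth {k : ℕ} (ν : Measure (E k)) (α A : ℝ) : Prop :=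
  ∀ (w : E k) (R : ℝ), 1 ≤ R → ν (ball w R) ≤ ENNReal.ofReal (A * R ^ α)

/-- `∫ G(ξ) e^{2πi x·ξ} dμ(ξ)` -/
noncomputable def hat {n : ℕ} (μ : Measure (E n)) (G : E n → ℂ) (x : E n) : ℂ :=
  ∫ ξ, G ξ * ex ⟪x, ξ⟫ ∂μ

/-- The adjoint of `κ`: the component of `x` in `ℝ^k`. -/
noncomputable def cp {n k : ℕ} (κ : E k →ₗᵢ[ℝ] E n) (x : E n) : E k :=
  ContinuousLinearMap.adjoint κ.toContinuousLinearMap x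

/-- Normalised Lebesgue measure on the ball of radius `r`. -/
noncomputable def bm (n : ℕ) (r : ℝ) : Measure (E n) :=
  (volume (closedBall (0 : E n) r))⁻¹ • (volume : Measure (E n)).restrict (closedBall 0 r)

/-- `τ * κ * ... * κ` (`i` factors `κ`) -/
noncomputable def cv {n : ℕ} (τ κ : Measure (E n)) : ℕ → Measure (E n)
  | 0 => τ
  | i + 1 => (cv τ κ i).conv κ

/-- The weight, as a function on `ℝ^k`: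
`ρ^(-θ/2) + ∑_{j < J} ∑_i 2^(-θ j) sin²(2^j s_i)`. -/
noncomputable def Wr {k : ℕ} (ρ θ : ℝ) (J : ℕ) (s : E k) : ℝ :=
  ρ ^ (-(θ / 2)) + ∑ j ∈ Finset.range J, ∑ i, (2 : ℝ) ^ (-(θ * j)) * Real.sin (2 ^ j * s i) ^ 2

/-- admissible parameters of the weight -/
def Adm (ρ θ : ℝ) (J : ℕ) : Prop :=
  (θ = 0 ∧ J = 0) ∨ (0 < θ ∧ θ ≤ 1 ∧ Real.sqrt ρ ≤ 2 ^ J ∧ 2 ^ J ≤ 2 * Real.sqrt ρ)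

/-! ## Pieces in `ℝ^k` -/

/-- (GAU) Gaussian averages of `|hat ν g|²` -/
def S_GAU : Prop := ∀ (k : ℕ) (ν : Measure (E k)) (g : E k → ℂ), SFinite ν → Measurable g →
  Integrable g ν → ∀ (c : E k) (l : ℝ), 0 < l →
  ((∫ w, Real.exp (-(Real.pi * ‖w - c‖ ^ 2 / l ^ 2)) * ‖hat ν g w‖ ^ 2 : ℝ) : ℂ) =
    ∫ p : E k × E k, g p.1 * (starRingEnd ℂ) (g p.2) *
      (ex ⟪c, p.1 - p.2⟫ * ((l ^ k * Real.exp (-(Real.pi * l ^ 2 * ‖p.1 - p.2‖ ^ 2)) : ℝ) : ℂ))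
      ∂(ν.prod ν)

/-- (SCH) Schur's test -/
def S_SCH : Prop := ∀ (k : ℕ) (ν : Measure (E k)) (g : E k → ℂ) (h : E k → ℝ≥0∞), SFinite ν →
  Measurable g → Measurable h → (∀ y, h (-y) = h y) → ∀ B : ℝ≥0∞,
  (∀ y, ∫⁻ y', h (y - y') ∂ν ≤ B) →
  ∫⁻ p : E k × E k, ‖g p.1‖ₑ * ‖g p.2‖ₑ * h (p.1 - p.2) ∂(ν.prod ν) ≤ B * ∫⁻ y, ‖g y‖ₑ ^ 2 ∂ν

/-- (BALL) -/
def S_BALL : Prop := ∀ (k : ℕ) (α : ℝ), 0 ≤ α → ∃ C : ℝ, 0 ≤ C ∧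
  ∀ (A : ℝ) (ν : Measure (E k)), 0 ≤ A → SFinite ν → Growth ν α A →
  ∀ (c : E k) (l : ℝ), 0 < l → l ≤ 10 → ∀ g : E k → ℂ, Measurable g → Integrable g ν →
  ∫⁻ w in closedBall c l, ‖hat ν g w‖ₑ ^ 2 ≤
    ENNReal.ofReal (C * A * l ^ ((k : ℝ) - α)) * ∫⁻ y, ‖g y‖ₑ ^ 2 ∂ν

/-- (ANN) annuli, `k ≥ 2` -/
def S_ANN : Prop := ∀ (k : ℕ), 2 ≤ k → ∀ α β : ℝ, 0 ≤ α → 0 < β → α - ((k : ℝ) - 1) / 2 ≤ β →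
  ∃ C : ℝ, 0 ≤ C ∧
  ∀ (A : ℝ) (ν : Measure (E k)), 0 ≤ A → SFinite ν → Growth ν α A →
  ∀ δ r : ℝ, 0 < δ → δ ≤ r → r ≤ 2 → ∀ g : E k → ℂ, Measurable g → Integrable g ν →
  ∫⁻ w in {w : E k | r - δ ≤ ‖w‖ ∧ ‖w‖ ≤ r}, ‖hat ν g w‖ₑ ^ 2 ≤
    ENNReal.ofReal (C * A * (δ * r ^ ((k : ℝ) - 1 - α) * (r / δ) ^ β)) * ∫⁻ y, ‖g y‖ₑ ^ 2 ∂ν

/-- (FIB) the fibres of a shell, with the weight -/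
def S_FIB : Prop := ∀ (k : ℕ), 1 ≤ k → ∀ α β θ : ℝ, 0 ≤ α → 0 < β → α - ((k : ℝ) - 1) / 2 ≤ β →
  0 ≤ θ → θ ≤ 1 → ∃ C : ℝ, 0 ≤ C ∧
  ∀ (A : ℝ) (ν : Measure (E k)), 0 ≤ A → SFinite ν → Growth ν α A →
  ∀ δ r : ℝ, 0 < δ → δ ≤ 1 → 0 ≤ r → r ≤ 2 → ∀ g : E k → ℂ, Measurable g → Integrable g ν →
  ∫⁻ w in {w : E k | r ^ 2 - 4 * δ ≤ ‖w‖ ^ 2 ∧ ‖w‖ ^ 2 ≤ r ^ 2},
      ENNReal.ofReal ((‖w‖ + Real.sqrt δ) ^ θ) * ‖hat ν g w‖ₑ ^ 2 ≤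
    ENNReal.ofReal (C * A * δ ^ (1 - max β ((α - k + 2 - θ) / 2))) * ∫⁻ y, ‖g y‖ₑ ^ 2 ∂ν

/-! ## Pieces in `ℝ^n` -/

/-- (SLICE) from the fibres to the shell: Plancherel in `ℝ^m` -/
def S_SLICE : Prop := ∀ (m k : ℕ) (ι : E m →ₗᵢ[ℝ] E (m + k)) (κ : E k →ₗᵢ[ℝ] E (m + k)),
  (∀ y w, ⟪ι y, κ w⟫ = 0) → ∀ ν : Measure (E k), SFinite ν → ∀ (θ δ : ℝ) (B : ℝ≥0∞), 0 ≤ θ →
  0 < δ → δ ≤ 1 →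
  (∀ r : ℝ, 0 ≤ r → r ≤ 2 → ∀ g : E k → ℂ, Measurable g → Integrable g ν →
    ∫⁻ w in {w : E k | r ^ 2 - 4 * δ ≤ ‖w‖ ^ 2 ∧ ‖w‖ ^ 2 ≤ r ^ 2},
      ENNReal.ofReal ((‖w‖ + Real.sqrt δ) ^ θ) * ‖hat ν g w‖ₑ ^ 2 ≤ B * ∫⁻ y, ‖g y‖ₑ ^ 2 ∂ν) →
  ∀ G : E m × E k → ℂ, Measurable G → Integrable G ((volume : Measure (E m)).prod ν) →
  (∃ M : ℝ, ∀ p, ‖G p‖ ≤ M) →
  ∫⁻ x in {x : E (m + k) | |‖x‖ - 1| ≤ δ}, ENNReal.ofReal ((‖cp κ x‖ + Real.sqrt δ) ^ θ) *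
      ‖∫ p, G p * ex ⟪x, ι p.1 + κ p.2⟫ ∂((volume : Measure (E m)).prod ν)‖ₑ ^ 2 ≤
    B * ∫⁻ p, ‖G p‖ₑ ^ 2 ∂((volume : Measure (E m)).prod ν)

/-- (DOM) the measures `σ_W * b * ... * b` are dominated by Lebesgue measure on a shell -/
def S_DOM : Prop := ∀ n : ℕ, 2 ≤ n → ∃ C : ℝ, 0 ≤ C ∧ ∀ ρ : ℝ, (n : ℝ) ≤ ρ →
  ∀ W V : E n → ℝ≥0∞, Measurable W → Measurable V →
  (∀ x u : E n, ‖x‖ = 1 → ‖x - u‖ ≤ n / ρ → W x ≤ V u) →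
  ∀ i : ℕ, 1 ≤ i → i ≤ n → ∀ H : E n → ℝ≥0∞, Measurable H →
  ∫⁻ x, H x ∂(cv ((sg n).withDensity W) (bm n (1 / ρ)) i) ≤
    ENNReal.ofReal (C * ρ) * ∫⁻ u in {u : E n | |‖u‖ - 1| ≤ n / ρ}, H u * V u

/-- (KER) the algebraic identity `1 = (1 - b)^M + ...` for positive definite kernels -/
def S_KER : Prop := ∀ (n : ℕ) (τ κ : Measure (E n)), IsFiniteMeasure τ → IsProbabilityMeasure κ →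
  ∀ (μ : Measure (E n)) (G : E n → ℂ), SFinite μ → Integrable G μ → ∀ (M : ℕ) (B : ℝ), 0 ≤ B →
  (∀ ξ : E n, ‖charFun τ ((2 * Real.pi) • ξ)‖ * ‖1 - charFun κ ((2 * Real.pi) • ξ)‖ ^ M ≤ B) →
  ∫ x, ‖hat μ G x‖ ^ 2 ∂τ ≤ B * (∫ ξ, ‖G ξ‖ ∂μ) ^ 2 +
    ∑ i ∈ Finset.Icc 1 M, (M.choose i : ℝ) * ∫ x, ‖hat μ G x‖ ^ 2 ∂(cv τ κ i)

/-- (DEC) the kernel bound -/
def S_DEC : Prop := ∀ n k : ℕ, 2 ≤ n → ∀ θ : ℝ, 0 ≤ θ → ∃ C : ℝ, 0 ≤ C ∧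
  ∀ (κ : E k →ₗᵢ[ℝ] E n) (ρ : ℝ) (J : ℕ), (n : ℝ) ≤ ρ → Adm ρ θ J → ∀ ξ : E n,
  ‖charFun ((sg n).withDensity fun x => ENNReal.ofReal (Wr ρ θ J (cp κ x))) ((2 * Real.pi) • ξ)‖ *
    ‖1 - charFun (bm n (1 / ρ)) ((2 * Real.pi) • ξ)‖ ^ n ≤ C * ρ ^ (-(((n : ℝ) - 1) / 2))

/-- (WB) upper and lower bounds of the weight -/
def S_WB : Prop := ∀ (k : ℕ) (θ : ℝ), 0 ≤ θ → θ ≤ 1 → ∃ C : ℝ, 0 < C ∧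
  ∀ (ρ : ℝ) (J : ℕ), 1 ≤ ρ → Adm ρ θ J → ∀ s : E k, ‖s‖ ≤ 1 →
  ‖s‖ ^ θ ≤ C * Wr ρ θ J s ∧ Wr ρ θ J s ≤ C * (‖s‖ + ρ ^ (-(1 / 2) : ℝ)) ^ θ

/-- (HOL) Hoelder's inequality with the weight -/
def S_HOL : Prop := ∀ (m k : ℕ), 1 ≤ k → 2 ≤ m + k → ∀ (θ : ℝ) (s : ℝ≥0∞), 0 ≤ θ → θ ≤ 1 → 2 ≤ s →
  (θ = 0 ∨ θ < k * (1 - 2 * (s⁻¹).toReal)) → ∃ C : ℝ≥0, ∀ (ι : E m →ₗᵢ[ℝ] E (m + k))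
  (κ : E k →ₗᵢ[ℝ] E (m + k)), (∀ y w, ⟪ι y, κ w⟫ = 0) → ∀ (ρ : ℝ) (J : ℕ), 1 ≤ ρ → Adm ρ θ J →
  ∀ f : E (m + k) → ℂ, AEStronglyMeasurable f (sg (m + k)) →
  ∫⁻ x, ‖f x‖ₑ ^ 2 / ENNReal.ofReal (Wr ρ θ J (cp κ x)) ∂(sg (m + k)) ≤
    C * eLpNorm f s (sg (m + k)) ^ 2

/-- (WS) from the weak type to the strong type -/
def S_WS : Prop := ∀ p q : ℝ, 0 < p → p < q → ∃ C : ℝ≥0, ∀ {Ω : Type} [MeasurableSpace Ω]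
  (μ : Measure Ω) (h : Ω → ℝ≥0∞) (A M : ℝ≥0), Measurable h → (∀ x, h x ≤ M) →
  (∀ t : ℝ, 0 < t → μ {x | ENNReal.ofReal t < h x} ≤ A * (M : ℝ≥0∞) ^ p / ENNReal.ofReal t ^ p) →
  ∫⁻ x, h x ^ q ∂μ ≤ C * A * (M : ℝ≥0∞) ^ q

/-- (KNAPP) lower bound for `L²` data -/
def S_KNAPP : Prop := ∀ (m k : ℕ), 1 ≤ m → 1 ≤ k → ∀ (ι : E m →ₗᵢ[ℝ] E (m + k))
  (κ : E k →ₗᵢ[ℝ] E (m + k)), (∀ y w, ⟪ι y, κ w⟫ = 0) → ∀ (ν : Measure (E k)) (α c : ℝ), 0 < c →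
  (∀ R₀ : ℝ, ∃ R : ℝ, R₀ ≤ R ∧ ENNReal.ofReal (c * R ^ α) ≤ ν (ball 0 R)) → ∀ q : ℝ, 0 < q →
  q < 2 + 2 * (α - k + 2) / ((m : ℝ) + k - 1) →
  ¬ ∃ C : ℝ≥0, ∀ f : E (m + k) → ℂ, Measurable f → (∀ x, ‖f x‖ ≤ 1) →
    ∫⁻ w, (∫⁻ y : E m, ‖∫ x, f x * ex (-⟪x, ι y + κ w⟫) ∂(sg (m + k))‖ₑ ^ q) ∂ν ≤
      C * eLpNorm f 2 (sg (m + k)) ^ q

end Pool.Agent.N720.SL
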