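import Mathlib
import Pool.Agent.N720.SL.Stm
import Pool.Agent.H789R2.FR.Sph
set_option autoImplicit false

/-! Basic facts for the assembly. -/

namespace Pool.Agent.N720.SL

open MeasureTheory Set Metric Complex
open scoped ENNReal NNReal RealInnerProductSpace
open Pool.Agent.H789R2.FR (sg sg_finite sg_ae)

instance sgF (n : ℕ) : IsFiniteMeasure (sg n) := sg_finite n

theorem ex_norm (t : ℝ) : ‖ex t‖ = 1 := by
  unfold ex
  exact Complex.norm_exp_ofReal_mul_I _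

theorem ex_cont : Continuous ex := by unfold ex; fun_prop

theorem ex_conj (t : ℝ) : (starRingEnd ℂ) (ex t) = ex (-t) := by
  unfold ex
  rw [← Complex.exp_conj]
  congr 1
  rw [map_mul, Complex.conj_ofReal, Complex.conj_I]
  push_cast
  ring

theorem bm_prob {n : ℕ} {r : ℝ} (hr : 0 < r) : IsProbabilityMeasure (bm n r) := by
  constructor
  unfold bm
  rw [Measure.smul_apply, Measure.restrict_apply_univ, smul_eq_mul]
  exact ENNReal.inv_mul_cancel (measure_closedBall_pos volume 0 hr).ne'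
    (measure_closedBall_lt_top).ne

theorem growth_ball {k : ℕ} {ν : Measure (E k)} {α A : ℝ} (h : Growth ν α A) (w : E k) (R : ℝ) :
    ν (ball w R) < ∞ := by
  refine lt_of_le_of_lt (measure_mono (ball_subset_ball (le_max_left R 1))) ?_
  exact lt_of_le_of_lt (h w (max R 1) (le_max_right _ _)) ENNReal.ofReal_lt_top

theorem growth_loc {k : ℕ} {ν : Measure (E k)} {α A : ℝ} (h : Growth ν α A) :
    IsLocallyFiniteMeasure ν :=
  ⟨fun x => ⟨ball x 1, ball_mem_nhds x one_pos, growth_ball h x 1⟩⟩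

theorem growth_sf {k : ℕ} {ν : Measure (E k)} {α A : ℝ} (h : Growth ν α A) : SigmaFinite ν := by
  have := growth_loc h
  infer_instance

theorem cp_norm {n k : ℕ} (κ : E k →ₗᵢ[ℝ] E n) (x : E n) : ‖cp κ x‖ ≤ ‖x‖ := by
  unfold cp
  refine (ContinuousLinearMap.le_opNorm _ _).trans ?_
  have h1 : ‖ContinuousLinearMap.adjoint κ.toContinuousLinearMap‖ ≤ 1 := by
    rw [LinearIsometryEquiv.norm_map]
    exact κ.norm_toContinuousLinearMap_le
  calc _ ≤ 1 * ‖x‖ := mul_le_mul_of_nonneg_right h1 (norm_nonneg x)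
    _ = ‖x‖ := one_mul _

theorem cp_cont {n k : ℕ} (κ : E k →ₗᵢ[ℝ] E n) : Continuous (cp κ) :=
  (ContinuousLinearMap.adjoint κ.toContinuousLinearMap).continuous

theorem cp_sub {n k : ℕ} (κ : E k →ₗᵢ[ℝ] E n) (x y : E n) : cp κ (x - y) = cp κ x - cp κ y := by
  unfold cp; rw [map_sub]

theorem cp_iso {n k : ℕ} (κ : E k →ₗᵢ[ℝ] E n) (w : E k) : cp κ (κ w) = w := by
  refine ext_inner_right ℝ fun v => ?_
  unfold cp
  rw [ContinuousLinearMap.adjoint_inner_left]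
  exact κ.inner_map_map w v

theorem cp_orth {n m k : ℕ} (ι : E m →ₗᵢ[ℝ] E n) (κ : E k →ₗᵢ[ℝ] E n)
    (h : ∀ y w, ⟪ι y, κ w⟫ = 0) (y : E m) : cp κ (ι y) = 0 := by
  refine ext_inner_right ℝ fun v => ?_
  unfold cp
  rw [ContinuousLinearMap.adjoint_inner_left, inner_zero_left]
  exact h y v

theorem Wr_cont {k : ℕ} (ρ θ : ℝ) (J : ℕ) : Continuous (Wr (k := k) ρ θ J) := by
  unfold Wr
  fun_prop

theorem Wr_nonneg {k : ℕ} {ρ θ : ℝ} (hρ : 0 ≤ ρ) (J : ℕ) (s : E k) : 0 ≤ Wr ρ θ J s := by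
  unfold Wr
  positivity

theorem Wr_pos {k : ℕ} {ρ θ : ℝ} (hρ : 0 < ρ) (J : ℕ) (s : E k) : 0 < Wr ρ θ J s := by
  unfold Wr
  have h1 : 0 < ρ ^ (-(θ / 2)) := Real.rpow_pos_of_pos hρ _
  have h2 : 0 ≤ ∑ j ∈ Finset.range J, ∑ i, (2 : ℝ) ^ (-(θ * j)) * Real.sin (2 ^ j * s i) ^ 2 := by
    positivity
  linarith

/-- the optimisation -/
theorem optim (d κ a b : ℝ) (hd : 0 < d) (ha : 0 < a) (hb : 0 ≤ b) (c n₀ : ℝ)
    (hc : 0 < c) (hn₀ : 1 ≤ n₀) :
    ∃ K : ℝ, 0 ≤ K ∧ ∀ N t : ℝ, 0 ≤ N → 0 < t → t ≤ c →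
      (∀ ρ : ℝ, n₀ ≤ ρ → t ^ 2 * N ^ 2 ≤ a * ρ ^ (-d) * N ^ 2 + b * ρ ^ κ * N) →
      N ≤ K * t ^ (-(2 + 2 * κ / d)) := by
  set B : ℝ := max n₀ 1 * c ^ (2 / d) + (2 * a) ^ (1 / d) with hB
  have hB0 : 0 < B := by
    have h1 : 0 < max n₀ 1 * c ^ (2 / d) := mul_pos (by positivity) (Real.rpow_pos_of_pos hc _)
    have h2 : 0 ≤ (2 * a) ^ (1 / d) := Real.rpow_nonneg (by positivity) _
    linarith
  refine ⟨2 * b * B ^ κ, by positivity, ?_⟩
  intro N t hN ht htc h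
  set ρ : ℝ := B * t ^ (-(2 / d)) with hρ
  have ht2 : 0 < t ^ (-(2 / d)) := Real.rpow_pos_of_pos ht _
  have hρ1 : n₀ ≤ ρ := by
    have h1 : c ^ (-(2 / d)) ≤ t ^ (-(2 / d)) :=
      Real.rpow_le_rpow_of_nonpos ht htc (by
        have : 0 ≤ 2 / d := by positivity
        linarith)
    have h2 : max n₀ 1 * c ^ (2 / d) ≤ B := by
      rw [hB]
      have : 0 ≤ (2 * a) ^ (1 / d) := Real.rpow_nonneg (by positivity) _
      linarith
    calc n₀ ≤ max n₀ 1 := le_max_left _ _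
      _ = max n₀ 1 * c ^ (2 / d) * c ^ (-(2 / d)) := by
          rw [mul_assoc, ← Real.rpow_add hc]
          simp
      _ ≤ B * t ^ (-(2 / d)) := by
          exact mul_le_mul h2 h1 (Real.rpow_nonneg hc.le _) hB0.le
  have hρ0 : 0 < ρ := by linarith
  have h1 := h ρ hρ1
  have h2 : a * ρ ^ (-d) ≤ t ^ 2 / 2 := by
    have e1 : (2 * a) ^ (1 / d) * t ^ (-(2 / d)) ≤ ρ := by
      rw [hρ]
      refine mul_le_mul_of_nonneg_right ?_ ht2.le
      rw [hB]
      have : 0 ≤ max n₀ 1 * c ^ (2 / d) := by positivity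
      linarith
    have e2 : ((2 * a) ^ (1 / d) * t ^ (-(2 / d))) ^ d = 2 * a * t ^ (-2 : ℝ) := by
      rw [Real.mul_rpow (Real.rpow_nonneg (by positivity) _) ht2.le, ← Real.rpow_mul (by positivity),
        ← Real.rpow_mul ht.le]
      congr 1
      · rw [one_div_mul_cancel hd.ne', Real.rpow_one]
      · congr 1
        field_simp
    have e3 : 2 * a * t ^ (-2 : ℝ) ≤ ρ ^ d := by
      rw [← e2]
      exact Real.rpow_le_rpow (mul_nonneg (Real.rpow_nonneg (by positivity) _) ht2.le) e1 hd.le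
    have e4 : t ^ (-2 : ℝ) = (t ^ 2)⁻¹ := by
      rw [Real.rpow_neg ht.le]
      norm_cast
    rw [e4] at e3
    rw [Real.rpow_neg hρ0.le]
    have hρd : 0 < ρ ^ d := Real.rpow_pos_of_pos hρ0 _
    have ht3 : 0 < t ^ 2 := by positivity
    rw [← div_eq_mul_inv, div_le_iff₀ hρd]
    have e5 : 2 * a ≤ ρ ^ d * t ^ 2 := by
      rw [← div_eq_mul_inv, div_le_iff₀ ht3] at e3
      exact e3
    nlinarith
  have h3 : t ^ 2 / 2 * N ^ 2 ≤ b * ρ ^ κ * N := by
    have := mul_le_mul_of_nonneg_right h2 (sq_nonneg N)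
    linarith
  rcases hN.eq_or_lt with h0 | h0
  · rw [← h0]
    have : 0 ≤ t ^ (-(2 + 2 * κ / d)) := Real.rpow_nonneg ht.le _
    positivity
  · have h4 : t ^ 2 / 2 * N ≤ b * ρ ^ κ := by
      have : (t ^ 2 / 2 * N) * N ≤ (b * ρ ^ κ) * N := by linarith
      exact le_of_mul_le_mul_right this h0
    have h5 : ρ ^ κ = B ^ κ * t ^ (-(2 * κ / d)) := by
      rw [hρ, Real.mul_rpow hB0.le ht2.le, ← Real.rpow_mul ht.le]
      congr 2
      ring
    have h6 : t ^ (-(2 + 2 * κ / d)) = (t ^ 2)⁻¹ * t ^ (-(2 * κ / d)) := by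
      rw [show -(2 + 2 * κ / d) = (-2 : ℝ) + -(2 * κ / d) by ring, Real.rpow_add ht]
      congr 1
      rw [Real.rpow_neg ht.le]
      norm_cast
    rw [h6]
    rw [h5] at h4
    have ht3 : 0 < t ^ 2 := by positivity
    have h7 : N ≤ 2 * (b * (B ^ κ * t ^ (-(2 * κ / d)))) * (t ^ 2)⁻¹ := by
      rw [← div_eq_mul_inv, le_div_iff₀ ht3]
      linarith
    calc N ≤ _ := h7
      _ = _ := by ring

end Pool.Agent.N720.SL
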