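import Mathlib
import Pool.Agent.N720.SL.Stm
set_option autoImplicit false

/-! Project CY (helper720): two more pieces, the necessity of `q ≥ 2`. -/

namespace Pool.Agent.N720.SL

open MeasureTheory Set Metric Complex
open scoped ENNReal NNReal RealInnerProductSpace
open Pool.Agent.H789R2.FR (sg)

/-- (RL) the lemma of Riemann and Lebesgue for densities on the sphere -/
def S_RL : Prop := ∀ n : ℕ, 2 ≤ n → ∀ g : E n → ℂ, Integrable g (sg n) → ∀ ε : ℝ, 0 < ε →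
  ∃ R : ℝ, ∀ ξ : E n, R ≤ ‖ξ‖ → ‖∫ x, g x * ex (-⟪x, ξ⟫) ∂(sg n)‖ ≤ ε

/-- (TWO) `q ≥ 2` is necessary, even for bounded densities -/
def S_TWO : Prop := ∀ (m k : ℕ), 1 ≤ m → 1 ≤ k → ∀ (ι : E m →ₗᵢ[ℝ] E (m + k))
  (κ : E k →ₗᵢ[ℝ] E (m + k)), (∀ y w, ⟪ι y, κ w⟫ = 0) → ∀ ν : Measure (E k), ν ≠ 0 →
  ∀ q : ℝ, 0 < q → q < 2 → ¬ ∃ C : ℝ≥0, ∀ f : E (m + k) → ℂ, Measurable f → (∀ x, ‖f x‖ ≤ 1) →
    ∫⁻ w, (∫⁻ y : E m, ‖∫ x, f x * ex (-⟪x, ι y + κ w⟫) ∂(sg (m + k))‖ₑ ^ q) ∂ν ≤ C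

end Pool.Agent.N720.SL
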