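import Mathlib
import Pool.Agent.N720.SL.A1
set_option autoImplicit false

/-! The energy bound: the weighted `L²` norm of the adjoint operator. -/

namespace Pool.Agent.N720.SL

open MeasureTheory Set Metric Complex
open scoped ENNReal NNReal RealInnerProductSpace
open Pool.Agent.H789R2.FR (sg sg_finite sg_ae)

variable {m k : ℕ}

/-- the position map -/
noncomputable def Pt (ι : E m →ₗᵢ[ℝ] E (m + k)) (κ : E k →ₗᵢ[ℝ] E (m + k)) (p : E m × E k) :
    E (m + k) := ι p.1 + κ p.2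

theorem Pt_cont (ι : E m →ₗᵢ[ℝ] E (m + k)) (κ : E k →ₗᵢ[ℝ] E (m + k)) : Continuous (Pt ι κ) := by
  unfold Pt
  exact (ι.continuous.comp continuous_fst).add (κ.continuous.comp continuous_snd)

/-- the weighted measure on the sphere -/
noncomputable def tw (ρ θ : ℝ) (J : ℕ) (κ : E k →ₗᵢ[ℝ] E (m + k)) : Measure (E (m + k)) :=
  (sg (m + k)).withDensity fun x => ENNReal.ofReal (Wr ρ θ J (cp κ x))

theorem tw_dens_meas (ρ θ : ℝ) (J : ℕ) (κ : E k →ₗᵢ[ℝ] E (m + k)) :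
    Measurable fun x : E (m + k) => ENNReal.ofReal (Wr ρ θ J (cp κ x)) :=
  (((Wr_cont ρ θ J).comp (cp_cont κ)).measurable).ennreal_ofReal

theorem Wr_le (ρ θ : ℝ) (J : ℕ) (s : E k) :
    Wr ρ θ J s ≤ ρ ^ (-(θ / 2)) + ∑ j ∈ Finset.range J, ∑ _i : Fin k, (2 : ℝ) ^ (-(θ * j)) := by
  unfold Wr
  refine add_le_add le_rfl (Finset.sum_le_sum fun j _ => Finset.sum_le_sum fun i _ => ?_)
  have h1 : Real.sin (2 ^ j * s i) ^ 2 ≤ 1 := Real.sin_sq_le_one _
  have h2 : 0 ≤ (2 : ℝ) ^ (-(θ * j)) := by positivity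
  nlinarith

theorem tw_fin (ρ θ : ℝ) (J : ℕ) (κ : E k →ₗᵢ[ℝ] E (m + k)) : IsFiniteMeasure (tw ρ θ J κ) := by
  unfold tw
  refine isFiniteMeasure_withDensity ?_
  refine ne_of_lt (lt_of_le_of_lt (lintegral_mono fun x =>
    ENNReal.ofReal_le_ofReal (Wr_le ρ θ J (cp κ x))) ?_)
  rw [lintegral_const]
  exact ENNReal.mul_lt_top ENNReal.ofReal_lt_top (measure_lt_top _ _)

/-- The adjoint operator. -/
noncomputable def HH (ι : E m →ₗᵢ[ℝ] E (m + k)) (κ : E k →ₗᵢ[ℝ] E (m + k)) (ν : Measure (E k))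
    (G : E m × E k → ℂ) (x : E (m + k)) : ℂ :=
  ∫ p, G p * ex ⟪x, ι p.1 + κ p.2⟫ ∂((volume : Measure (E m)).prod ν)

theorem HH_hat (ι : E m →ₗᵢ[ℝ] E (m + k)) (κ : E k →ₗᵢ[ℝ] E (m + k))
    (ho : ∀ y w, ⟪ι y, κ w⟫ = 0) (ν : Measure (E k)) [SFinite ν] (G : E m × E k → ℂ)
    (hG : Measurable G) (x : E (m + k)) :
    HH ι κ ν G x = hat (((volume : Measure (E m)).prod ν).map (Pt ι κ))
      (fun ξ => G (cp ι ξ, cp κ ξ)) x := by
  have hinv : ∀ p : E m × E k, (cp ι (Pt ι κ p), cp κ (Pt ι κ p)) = p := by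
    intro p
    have h1 : cp ι (Pt ι κ p) = p.1 := by
      unfold Pt
      have := cp_iso ι p.1
      have h2 : cp ι (κ p.2) = 0 := cp_orth κ ι (fun y w => by rw [real_inner_comm]; exact ho w y) p.2
      have h3 : cp ι (ι p.1 + κ p.2) = cp ι (ι p.1) + cp ι (κ p.2) := by
        unfold cp; rw [map_add]
      rw [h3, this, h2, add_zero]
    have h4 : cp κ (Pt ι κ p) = p.2 := by
      unfold Pt
      have := cp_iso κ p.2
      have h2 : cp κ (ι p.1) = 0 := cp_orth ι κ ho p.1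
      have h3 : cp κ (ι p.1 + κ p.2) = cp κ (ι p.1) + cp κ (κ p.2) := by
        unfold cp; rw [map_add]
      rw [h3, this, h2, zero_add]
    rw [h1, h4]
  unfold hat HH
  rw [integral_map (Pt_cont ι κ).measurable.aemeasurable]
  · refine integral_congr_ae (Filter.Eventually.of_forall fun p => ?_)
    simp only
    rw [hinv p]
    rfl
  · refine Measurable.aestronglyMeasurable ?_
    refine (hG.comp ((cp_cont ι).measurable.prodMk (cp_cont κ).measurable)).mul ?_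
    exact (ex_cont.comp (by fun_prop : Continuous fun ξ : E (m + k) => (⟪x, ξ⟫ : ℝ))).measurable

/-- the bound of the fibres with the exponent `κ₁` -/
def FibK (k : ℕ) (α θ κ₁ : ℝ) : Prop := ∃ C : ℝ, 0 ≤ C ∧
  ∀ (A : ℝ) (ν : Measure (E k)), 0 ≤ A → SFinite ν → Growth ν α A →
  ∀ δ r : ℝ, 0 < δ → δ ≤ 1 → 0 ≤ r → r ≤ 2 → ∀ g : E k → ℂ, Measurable g → Integrable g ν →
  ∫⁻ w in {w : E k | r ^ 2 - 4 * δ ≤ ‖w‖ ^ 2 ∧ ‖w‖ ^ 2 ≤ r ^ 2},
      ENNReal.ofReal ((‖w‖ + Real.sqrt δ) ^ θ) * ‖hat ν g w‖ₑ ^ 2 ≤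
    ENNReal.ofReal (C * A * δ ^ (1 - κ₁)) * ∫⁻ y, ‖g y‖ₑ ^ 2 ∂ν

theorem fib_one (hBALL : S_BALL) (k : ℕ) (α : ℝ) (hα : 0 ≤ α) : FibK k α 0 1 := by
  obtain ⟨C, hC0, hC⟩ := hBALL k α hα
  refine ⟨C * 2 ^ ((k : ℝ) - α), by positivity, ?_⟩
  intro A ν hA hν hgr δ r hδ hδ1 hr hr2 g hg hgi
  have h1 := hC A ν hA hν hgr 0 2 (by norm_num) (by norm_num) g hg hgi
  rw [sub_self, Real.rpow_zero, mul_one]
  calc ∫⁻ w in {w : E k | r ^ 2 - 4 * δ ≤ ‖w‖ ^ 2 ∧ ‖w‖ ^ 2 ≤ r ^ 2},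
        ENNReal.ofReal ((‖w‖ + Real.sqrt δ) ^ (0 : ℝ)) * ‖hat ν g w‖ₑ ^ 2
      = ∫⁻ w in {w : E k | r ^ 2 - 4 * δ ≤ ‖w‖ ^ 2 ∧ ‖w‖ ^ 2 ≤ r ^ 2}, ‖hat ν g w‖ₑ ^ 2 := by
        refine lintegral_congr fun w => ?_
        rw [Real.rpow_zero, ENNReal.ofReal_one, one_mul]
    _ ≤ ∫⁻ w in closedBall (0 : E k) 2, ‖hat ν g w‖ₑ ^ 2 := by
        refine lintegral_mono_set fun w hw => ?_
        rw [mem_closedBall_zero_iff]
        have h2 : ‖w‖ ^ 2 ≤ r ^ 2 := hw.2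
        have h3 : ‖w‖ ≤ r := by
          rw [sq_le_sq₀ (norm_nonneg _) hr] at h2
          exact h2
        linarith
    _ ≤ _ := h1
    _ = _ := by
        congr 2
        ring

/-- the energy bound -/
theorem energy (hKER : S_KER) (hDEC : S_DEC) (hDOM : S_DOM) (hWB : S_WB)
    (hSLI : S_SLICE) (hn : 2 ≤ m + k) (α θ κ₁ : ℝ) (hFIB : FibK k α θ κ₁)
    (hθ : 0 ≤ θ) (hθ1 : θ ≤ 1) :
    ∃ a b : ℝ, 0 < a ∧ 0 ≤ b ∧ ∀ (A : ℝ), 0 ≤ A → ∀ (ι : E m →ₗᵢ[ℝ] E (m + k))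
      (κ : E k →ₗᵢ[ℝ] E (m + k)), (∀ y w, ⟪ι y, κ w⟫ = 0) → ∀ (ν : Measure (E k)), SFinite ν →
      Growth ν α A → ∀ (S : Set (E m × E k)), MeasurableSet S →
      ((volume : Measure (E m)).prod ν) S ≠ ∞ → ∀ G : E m × E k → ℂ, Measurable G →
      (∀ p, ‖G p‖ = S.indicator (fun _ => (1 : ℝ)) p) → ∀ (ρ : ℝ) (J : ℕ), ((m + k : ℕ) : ℝ) ≤ ρ →
      Adm ρ θ J →
      ∫ x, ‖HH ι κ ν G x‖ ^ 2 ∂(tw ρ θ J κ) ≤
        a * ρ ^ (-((((m + k : ℕ) : ℝ) - 1) / 2)) * (((volume : Measure (E m)).prod ν).real S) ^ 2 +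
        b * A * ρ ^ κ₁ * ((volume : Measure (E m)).prod ν).real S := by
  obtain ⟨Cd, hCd0, hCd⟩ := hDEC (m + k) k hn θ hθ
  obtain ⟨Co, hCo0, hCo⟩ := hDOM (m + k) hn
  obtain ⟨Cw, hCw0, hCw⟩ := hWB k θ hθ hθ1
  obtain ⟨Cf, hCf0, hCf⟩ := hFIB
  set n : ℕ := m + k with hndef
  have hn0 : (0 : ℝ) < (n : ℝ) := by
    have : 0 < n := by omega
    exact_mod_cast this
  have hn1 : (1 : ℝ) ≤ (n : ℝ) := by
    have : 1 ≤ n := by omega
    exact_mod_cast this
  refine ⟨Cd + 1, 2 ^ n * (Co * (2 * Cw) * (Cf * (n : ℝ) ^ (1 - κ₁))), by positivity, by positivity,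
    ?_⟩
  intro A hA ι κ ho ν hν hgr S hS hSfin G hG hGn ρ J hρ hJ
  set μ : Measure (E m × E k) := (volume : Measure (E m)).prod ν with hμ
  have hρ1 : 1 ≤ ρ := hn1.trans hρ
  have hρ0 : 0 < ρ := by linarith
  set δ : ℝ := n / ρ with hδ
  have hδ0 : 0 < δ := by positivity
  have hδ1 : δ ≤ 1 := (div_le_one hρ0).2 hρ
  set b := bm n (1 / ρ) with hb
  haveI hbp : IsProbabilityMeasure b := bm_prob (by positivity)
  haveI htf : IsFiniteMeasure (tw (m := m) ρ θ J κ) := tw_fin ρ θ J κ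
  set N : ℝ := μ.real S with hN
  have hN0 : 0 ≤ N := measureReal_nonneg
  have hGint : Integrable G μ := by
    have h1 : Integrable (S.indicator (fun _ => (1 : ℝ))) μ :=
      (integrable_indicator_iff hS).2 (integrableOn_const hSfin)
    refine h1.mono hG.aestronglyMeasurable (Filter.Eventually.of_forall fun p => ?_)
    rw [hGn p]
    exact Real.le_norm_self _
  have hGL1 : ∫ p, ‖G p‖ ∂μ = N := by
    simp_rw [hGn]
    rw [integral_indicator_const _ hS, smul_eq_mul, mul_one]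
  have hGL2 : ∫⁻ p, ‖G p‖ₑ ^ 2 ∂μ = ENNReal.ofReal N := by
    have h1 : ∀ p, ‖G p‖ₑ ^ 2 = S.indicator (fun _ => (1 : ℝ≥0∞)) p := by
      intro p
      rw [← ofReal_norm, hGn p]
      by_cases hp : p ∈ S
      · rw [indicator_of_mem hp, indicator_of_mem hp]; simp
      · rw [indicator_of_notMem hp, indicator_of_notMem hp]; simp
    simp_rw [h1]
    rw [lintegral_indicator_const hS, one_mul, hN, ofReal_measureReal hSfin]
  -- the position measure
  set μ' : Measure (E n) := μ.map (Pt ι κ) with hμ'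
  set G' : E n → ℂ := fun ξ => G (cp ι ξ, cp κ ξ) with hG'
  have hinv : ∀ p : E m × E k, (cp ι (Pt ι κ p), cp κ (Pt ι κ p)) = p := by
    intro p
    have h1 : cp ι (Pt ι κ p) = p.1 := by
      unfold Pt
      have h2 : cp ι (κ p.2) = 0 := cp_orth κ ι (fun y w => by rw [real_inner_comm]; exact ho w y) p.2
      have h3 : cp ι (ι p.1 + κ p.2) = cp ι (ι p.1) + cp ι (κ p.2) := by
        unfold cp; rw [map_add]
      rw [h3, cp_iso ι p.1, h2, add_zero]
    have h4 : cp κ (Pt ι κ p) = p.2 := by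
      unfold Pt
      have h2 : cp κ (ι p.1) = 0 := cp_orth ι κ ho p.1
      have h3 : cp κ (ι p.1 + κ p.2) = cp κ (ι p.1) + cp κ (κ p.2) := by
        unfold cp; rw [map_add]
      rw [h3, cp_iso κ p.2, h2, zero_add]
    rw [h1, h4]
  have hG'm : Measurable G' :=
    hG.comp ((cp_cont ι).measurable.prodMk (cp_cont κ).measurable)
  have hG'int : Integrable G' μ' := by
    rw [hμ', integrable_map_measure hG'm.aestronglyMeasurable (Pt_cont ι κ).measurable.aemeasurable]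
    refine hGint.congr (Filter.Eventually.of_forall fun p => ?_)
    simp only [hG', Function.comp]
    rw [hinv p]
  have hG'L1 : ∫ ξ, ‖G' ξ‖ ∂μ' = N := by
    rw [hμ', integral_map (Pt_cont ι κ).measurable.aemeasurable hG'm.norm.aestronglyMeasurable,
      ← hGL1]
    refine integral_congr_ae (Filter.Eventually.of_forall fun p => ?_)
    simp only [hG']
    rw [hinv p]
  have hHH : ∀ x, HH ι κ ν G x = hat μ' G' x := fun x => HH_hat ι κ ho ν G hG x
  have hK := hKER n (tw ρ θ J κ) b htf hbp μ' G' inferInstance hG'int n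
    (Cd * ρ ^ (-(((n : ℝ) - 1) / 2))) (by positivity) (fun ξ => hCd κ ρ J hρ hJ ξ)
  simp_rw [← hHH] at hK
  rw [hG'L1] at hK
  -- each term
  have hterm : ∀ i ∈ Finset.Icc 1 n, ∫ x, ‖HH ι κ ν G x‖ ^ 2 ∂(cv (tw ρ θ J κ) b i) ≤
      Co * ρ * (2 * Cw) * (Cf * A * δ ^ (1 - κ₁)) * N := by
    intro i hi
    rw [Finset.mem_Icc] at hi
    set V : E n → ℝ≥0∞ := fun u => ENNReal.ofReal (2 * Cw * (‖cp κ u‖ + Real.sqrt δ) ^ θ) with hV
    have hVm : Measurable V := by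
      refine Measurable.ennreal_ofReal ?_
      exact (((cp_cont κ).norm.measurable.add_const _).pow_const θ).const_mul _
    have hWV : ∀ x u : E n, ‖x‖ = 1 → ‖x - u‖ ≤ n / ρ →
        ENNReal.ofReal (Wr ρ θ J (cp κ x)) ≤ V u := by
      intro x u hx hxu
      refine ENNReal.ofReal_le_ofReal ?_
      have h1 := (hCw ρ J hρ1 hJ (cp κ x) ((cp_norm κ x).trans hx.le)).2
      refine h1.trans ?_
      have h2 : ‖cp κ x‖ ≤ ‖cp κ u‖ + δ := by
        have h3 : cp κ x = cp κ u + cp κ (x - u) := by rw [cp_sub]; abel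
        rw [h3]
        exact (norm_add_le _ _).trans (add_le_add le_rfl ((cp_norm κ _).trans hxu))
      have h4 : δ ≤ Real.sqrt δ := by
        rw [Real.le_sqrt hδ0.le hδ0.le]
        nlinarith
      have h5 : ρ ^ (-(1 / 2) : ℝ) ≤ Real.sqrt δ := by
        rw [Real.rpow_neg hρ0.le, ← Real.sqrt_eq_rpow, ← Real.sqrt_inv]
        refine Real.sqrt_le_sqrt ?_
        rw [hδ, ← one_div]
        gcongr
      have h6 : 0 ≤ Real.sqrt δ := Real.sqrt_nonneg _
      have h7 : ‖cp κ x‖ + ρ ^ (-(1 / 2) : ℝ) ≤ 2 * (‖cp κ u‖ + Real.sqrt δ) := by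
        have := norm_nonneg (cp κ u)
        linarith
      have h8 : (‖cp κ x‖ + ρ ^ (-(1 / 2) : ℝ)) ^ θ ≤ 2 * (‖cp κ u‖ + Real.sqrt δ) ^ θ := by
        calc (‖cp κ x‖ + ρ ^ (-(1 / 2) : ℝ)) ^ θ ≤ (2 * (‖cp κ u‖ + Real.sqrt δ)) ^ θ :=
              Real.rpow_le_rpow (by positivity) h7 hθ
          _ = 2 ^ θ * (‖cp κ u‖ + Real.sqrt δ) ^ θ :=
              Real.mul_rpow (by norm_num) (by positivity)
          _ ≤ 2 * (‖cp κ u‖ + Real.sqrt δ) ^ θ := by
              refine mul_le_mul_of_nonneg_right ?_ (by positivity)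
              calc (2 : ℝ) ^ θ ≤ 2 ^ (1 : ℝ) := Real.rpow_le_rpow_of_exponent_le (by norm_num) hθ1
                _ = 2 := Real.rpow_one 2
      calc Cw * (‖cp κ x‖ + ρ ^ (-(1 / 2) : ℝ)) ^ θ
          ≤ Cw * (2 * (‖cp κ u‖ + Real.sqrt δ) ^ θ) := mul_le_mul_of_nonneg_left h8 hCw0.le
        _ = 2 * Cw * (‖cp κ u‖ + Real.sqrt δ) ^ θ := by ring
    have hHm : Measurable fun x => ‖HH ι κ ν G x‖ₑ ^ 2 := by
      have h1 : StronglyMeasurable (HH ι κ ν G) := by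
        unfold HH
        refine StronglyMeasurable.integral_prod_right (f := fun x p => G p * ex ⟪x, ι p.1 + κ p.2⟫) ?_
        refine Measurable.stronglyMeasurable ?_
        refine (hG.comp measurable_snd).mul ?_
        refine (ex_cont.measurable).comp ?_
        refine Continuous.measurable ?_
        have := Pt_cont ι κ
        unfold Pt at this
        fun_prop
      exact (h1.measurable.enorm).pow_const 2
    have h1 := hCo ρ hρ _ V (tw_dens_meas ρ θ J κ) hVm hWV i hi.1 hi.2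
      (fun x => ‖HH ι κ ν G x‖ₑ ^ 2) hHm
    have h2 := hSLI m k ι κ ho ν hν θ δ (ENNReal.ofReal (Cf * A * δ ^ (1 - κ₁))) hθ hδ0 hδ1
      (fun r hr0 hr2 g hg hgi => hCf A ν hA hν hgr δ r hδ0 hδ1 hr0 hr2 g hg hgi) G hG hGint
      ⟨1, fun p => by
        rw [hGn p]
        exact (indicator_le_self' (fun _ _ => zero_le_one) p)⟩
    rw [hGL2] at h2
    have h3 : ∫⁻ u in {u : E n | |‖u‖ - 1| ≤ n / ρ}, ‖HH ι κ ν G u‖ₑ ^ 2 * V u ≤
        ENNReal.ofReal (2 * Cw) * (ENNReal.ofReal (Cf * A * δ ^ (1 - κ₁)) * ENNReal.ofReal N) := by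
      refine le_trans (le_of_eq ?_) (mul_le_mul_right h2 _)
      rw [← lintegral_const_mul' _ _ ENNReal.ofReal_ne_top]
      refine lintegral_congr fun u => ?_
      rw [hV]
      simp only
      rw [ENNReal.ofReal_mul (by positivity : (0 : ℝ) ≤ 2 * Cw)]
      unfold HH
      ring
    have h4 : ∫⁻ x, ‖HH ι κ ν G x‖ₑ ^ 2 ∂(cv (tw ρ θ J κ) b i) ≤
        ENNReal.ofReal (Co * ρ * (2 * Cw) * (Cf * A * δ ^ (1 - κ₁)) * N) := by
      refine h1.trans ((mul_le_mul_right h3 _).trans (le_of_eq ?_))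
      rw [← ENNReal.ofReal_mul (by positivity), ← ENNReal.ofReal_mul (by positivity),
        ← ENNReal.ofReal_mul (by positivity)]
      congr 1
      ring
    rw [integral_eq_lintegral_of_nonneg_ae (Filter.Eventually.of_forall fun x => by positivity)]
    · refine ENNReal.toReal_le_of_le_ofReal (by positivity) ?_
      refine le_trans (le_of_eq (lintegral_congr fun x => ?_)) h4
      rw [← ofReal_norm, ENNReal.ofReal_pow (norm_nonneg _)]
    · have h1 : StronglyMeasurable (HH ι κ ν G) := by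
        unfold HH
        refine StronglyMeasurable.integral_prod_right (f := fun x p => G p * ex ⟪x, ι p.1 + κ p.2⟫) ?_
        refine Measurable.stronglyMeasurable ?_
        refine (hG.comp measurable_snd).mul ?_
        refine (ex_cont.measurable).comp ?_
        refine Continuous.measurable ?_
        have := Pt_cont ι κ
        unfold Pt at this
        fun_prop
      exact ((h1.measurable.norm).pow_const 2).aestronglyMeasurable
  have hsum : ∑ i ∈ Finset.Icc 1 n, (n.choose i : ℝ) *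
      ∫ x, ‖HH ι κ ν G x‖ ^ 2 ∂(cv (tw ρ θ J κ) b i) ≤
      2 ^ n * (Co * ρ * (2 * Cw) * (Cf * A * δ ^ (1 - κ₁)) * N) := by
    calc _ ≤ ∑ i ∈ Finset.Icc 1 n, (n.choose i : ℝ) *
          (Co * ρ * (2 * Cw) * (Cf * A * δ ^ (1 - κ₁)) * N) :=
          Finset.sum_le_sum fun i hi => mul_le_mul_of_nonneg_left (hterm i hi) (by positivity)
      _ = (∑ i ∈ Finset.Icc 1 n, (n.choose i : ℝ)) *
          (Co * ρ * (2 * Cw) * (Cf * A * δ ^ (1 - κ₁)) * N) := by rw [Finset.sum_mul]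
      _ ≤ _ := by
          refine mul_le_mul_of_nonneg_right ?_ (by positivity)
          have h1 : ∑ i ∈ Finset.Icc 1 n, n.choose i ≤ ∑ i ∈ Finset.range (n + 1), n.choose i := by
            refine Finset.sum_le_sum_of_subset fun i hi => ?_
            rw [Finset.mem_Icc] at hi
            rw [Finset.mem_range]
            omega
          rw [Nat.sum_range_choose] at h1
          exact_mod_cast h1
  have hpow : ρ * δ ^ (1 - κ₁) = (n : ℝ) ^ (1 - κ₁) * ρ ^ κ₁ := by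
    rw [hδ, Real.div_rpow hn0.le hρ0.le, Real.rpow_sub hρ0, Real.rpow_one]
    have : 0 < ρ ^ κ₁ := Real.rpow_pos_of_pos hρ0 _
    field_simp
  calc ∫ x, ‖HH ι κ ν G x‖ ^ 2 ∂(tw ρ θ J κ)
      ≤ Cd * ρ ^ (-(((n : ℝ) - 1) / 2)) * N ^ 2 +
        2 ^ n * (Co * ρ * (2 * Cw) * (Cf * A * δ ^ (1 - κ₁)) * N) := hK.trans (by linarith)
    _ ≤ (Cd + 1) * ρ ^ (-(((n : ℝ) - 1) / 2)) * N ^ 2 +
        2 ^ n * (Co * ρ * (2 * Cw) * (Cf * A * δ ^ (1 - κ₁)) * N) := by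
        have : 0 ≤ ρ ^ (-(((n : ℝ) - 1) / 2)) * N ^ 2 := by positivity
        linarith
    _ = _ := by
        congr 1
        calc 2 ^ n * (Co * ρ * (2 * Cw) * (Cf * A * δ ^ (1 - κ₁)) * N)
            = 2 ^ n * (Co * (2 * Cw) * (Cf * A * (ρ * δ ^ (1 - κ₁))) * N) := by ring
          _ = _ := by rw [hpow]; ring

end Pool.Agent.N720.SL
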