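import Mathlib
import Pool.Agent.N720.SL.A2
set_option autoImplicit false

/-! Cauchy-Schwarz, the extension operator. -/

namespace Pool.Agent.N720.SL

open MeasureTheory Set Metric Complex
open scoped ENNReal NNReal RealInnerProductSpace
open Pool.Agent.H789R2.FR (sg sg_finite sg_ae)

theorem cs {Ω : Type*} [MeasurableSpace Ω] (μ : Measure Ω) (a b : Ω → ℝ≥0∞)
    (ha : AEMeasurable a μ) (hb : AEMeasurable b μ) :
    (∫⁻ x, a x * b x ∂μ) ^ 2 ≤ (∫⁻ x, a x ^ 2 ∂μ) * ∫⁻ x, b x ^ 2 ∂μ := by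
  have h := ENNReal.lintegral_mul_le_Lp_mul_Lq μ (Real.HolderConjugate.two_two) ha hb
  have h1 : ∀ z : ℝ≥0∞, (z ^ (1 / (2 : ℝ))) ^ 2 = z := by
    intro z
    rw [← ENNReal.rpow_natCast, ← ENNReal.rpow_mul]
    norm_num
  have h2 : ∀ z : ℝ≥0∞, z ^ (2 : ℝ) = z ^ 2 := fun z => by norm_cast
  simp_rw [h2] at h
  calc (∫⁻ x, a x * b x ∂μ) ^ 2
      ≤ ((∫⁻ x, a x ^ 2 ∂μ) ^ (1 / (2 : ℝ)) * (∫⁻ x, b x ^ 2 ∂μ) ^ (1 / (2 : ℝ))) ^ 2 :=
        pow_le_pow_left' h 2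
    _ = _ := by rw [mul_pow, h1, h1]

theorem adm_exists (θ : ℝ) (hθ : 0 ≤ θ) (hθ1 : θ ≤ 1) (ρ : ℝ) (hρ : 1 ≤ ρ) : ∃ J, Adm ρ θ J := by
  rcases hθ.eq_or_lt with h | h
  · exact ⟨0, Or.inl ⟨h.symm, rfl⟩⟩
  · have h1 : 1 ≤ Real.sqrt ρ := by
      rw [Real.one_le_sqrt]; exact hρ
    obtain ⟨j, hj1, hj2⟩ := exists_nat_pow_near h1 (by norm_num : (1 : ℝ) < 2)
    refine ⟨j + 1, Or.inr ⟨h, hθ1, hj2.le, ?_⟩⟩
    rw [pow_succ]
    linarith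

variable {m k : ℕ}

/-- the extension operator in the coordinates -/
noncomputable def TT (ι : E m →ₗᵢ[ℝ] E (m + k)) (κ : E k →ₗᵢ[ℝ] E (m + k))
    (f : E (m + k) → ℂ) (p : E m × E k) : ℂ :=
  ∫ x, f x * ex (-⟪x, ι p.1 + κ p.2⟫) ∂(sg (m + k))

theorem TT_meas' (ι : E m →ₗᵢ[ℝ] E (m + k)) (κ : E k →ₗᵢ[ℝ] E (m + k))
    (g : E (m + k) → ℂ) (hg : Measurable g) : Measurable (TT ι κ g) := by
  have hph : Measurable fun z : (E m × E k) × E (m + k) => ex (-⟪z.2, ι z.1.1 + κ z.1.2⟫) := by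
    refine (ex_cont.measurable).comp ?_
    refine Continuous.measurable ?_
    have := Pt_cont ι κ
    unfold Pt at this
    fun_prop
  have hF : Measurable fun z : (E m × E k) × E (m + k) =>
      g z.2 * ex (-⟪z.2, ι z.1.1 + κ z.1.2⟫) := (hg.comp measurable_snd).mul hph
  exact (hF.stronglyMeasurable.integral_prod_right' (ν := sg (m + k))).measurable

theorem TT_meas (ι : E m →ₗᵢ[ℝ] E (m + k)) (κ : E k →ₗᵢ[ℝ] E (m + k))
    (f : E (m + k) → ℂ) (hf : AEStronglyMeasurable f (sg (m + k))) : Measurable (TT ι κ f) := by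
  obtain ⟨g, hg, hfg⟩ := hf
  have h0 : TT ι κ f = TT ι κ g := by
    funext p
    unfold TT
    refine integral_congr_ae ?_
    filter_upwards [hfg] with x hx
    rw [hx]
  rw [h0]
  exact TT_meas' ι κ g hg.measurable

theorem TT_bound (ι : E m →ₗᵢ[ℝ] E (m + k)) (κ : E k →ₗᵢ[ℝ] E (m + k))
    (f : E (m + k) → ℂ) (p : E m × E k) : ‖TT ι κ f p‖ₑ ≤ eLpNorm f 1 (sg (m + k)) := by
  unfold TT
  refine (enorm_integral_le_lintegral_enorm _).trans ?_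
  rw [eLpNorm_one_eq_lintegral_enorm]
  refine lintegral_mono fun x => ?_
  rw [enorm_mul]
  have : ‖ex (-⟪x, ι p.1 + κ p.2⟫)‖ₑ = 1 := by
    rw [← ofReal_norm, ex_norm, ENNReal.ofReal_one]
  rw [this, mul_one]

end Pool.Agent.N720.SL
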