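import Mathlib
import Pool.Agent.N720.SL.A3a
set_option autoImplicit false

/-! Duality. -/

namespace Pool.Agent.N720.SL

open MeasureTheory Set Metric Complex
open scoped ENNReal NNReal RealInnerProductSpace
open Pool.Agent.H789R2.FR (sg sg_finite sg_ae)

variable {m k : ℕ}

theorem phase_meas (ι : E m →ₗᵢ[ℝ] E (m + k)) (κ : E k →ₗᵢ[ℝ] E (m + k)) :
    Measurable fun z : (E m × E k) × E (m + k) => ex (-⟪z.2, ι z.1.1 + κ z.1.2⟫) := by
  refine (ex_cont.measurable).comp ?_
  refine Continuous.measurable ?_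
  have := Pt_cont ι κ
  unfold Pt at this
  fun_prop

theorem HH_meas (ι : E m →ₗᵢ[ℝ] E (m + k)) (κ : E k →ₗᵢ[ℝ] E (m + k)) (ν : Measure (E k))
    [SFinite ν] (G : E m × E k → ℂ) (hG : Measurable G) : Measurable (HH ι κ ν G) := by
  have hph : Measurable fun z : E (m + k) × (E m × E k) => ex ⟪z.1, ι z.2.1 + κ z.2.2⟫ := by
    refine (ex_cont.measurable).comp ?_
    refine Continuous.measurable ?_
    have := Pt_cont ι κ
    unfold Pt at this
    fun_prop
  have hF : Measurable fun z : E (m + k) × (E m × E k) =>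
      G z.2 * ex ⟪z.1, ι z.2.1 + κ z.2.2⟫ := (hG.comp measurable_snd).mul hph
  exact (hF.stronglyMeasurable.integral_prod_right'
    (ν := (volume : Measure (E m)).prod ν)).measurable

theorem HH_bound (ι : E m →ₗᵢ[ℝ] E (m + k)) (κ : E k →ₗᵢ[ℝ] E (m + k)) (ν : Measure (E k))
    (G : E m × E k → ℂ) (x : E (m + k)) :
    ‖HH ι κ ν G x‖ ≤ ∫ p, ‖G p‖ ∂((volume : Measure (E m)).prod ν) := by
  unfold HH
  refine (norm_integral_le_integral_norm _).trans (le_of_eq ?_)
  refine integral_congr_ae (Filter.Eventually.of_forall fun p => ?_)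
  simp only
  rw [norm_mul, ex_norm, mul_one]

theorem dual (ι : E m →ₗᵢ[ℝ] E (m + k)) (κ : E k →ₗᵢ[ℝ] E (m + k)) (ν : Measure (E k))
    [SFinite ν] (f : E (m + k) → ℂ) (hf : Integrable f (sg (m + k))) (G : E m × E k → ℂ)
    (hG : Measurable G) (hGi : Integrable G ((volume : Measure (E m)).prod ν)) :
    ∫ p, TT ι κ f p * (starRingEnd ℂ) (G p) ∂((volume : Measure (E m)).prod ν) =
        ∫ x, f x * (starRingEnd ℂ) (HH ι κ ν G x) ∂(sg (m + k)) := by
  have hcG : Measurable fun p => (starRingEnd ℂ) (G p) := Complex.continuous_conj.measurable.comp hG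
  have hint : Integrable (fun z : (E m × E k) × E (m + k) =>
      f z.2 * ex (-⟪z.2, ι z.1.1 + κ z.1.2⟫) * (starRingEnd ℂ) (G z.1))
      (((volume : Measure (E m)).prod ν).prod (sg (m + k))) := by
    refine (hGi.norm.mul_prod hf.norm).mono' ?_ ?_
    · exact ((hf.aestronglyMeasurable.comp_snd).mul
        (phase_meas ι κ).aestronglyMeasurable).mul (hcG.comp measurable_fst).aestronglyMeasurable
    · refine Filter.Eventually.of_forall fun z => ?_
      rw [norm_mul, norm_mul, ex_norm, mul_one, RCLike.norm_conj, mul_comm]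
  calc ∫ p, TT ι κ f p * (starRingEnd ℂ) (G p) ∂((volume : Measure (E m)).prod ν)
      = ∫ p, ∫ x, f x * ex (-⟪x, ι p.1 + κ p.2⟫) * (starRingEnd ℂ) (G p) ∂(sg (m + k))
          ∂((volume : Measure (E m)).prod ν) := by
        refine integral_congr_ae (Filter.Eventually.of_forall fun p => ?_)
        simp only
        unfold TT
        rw [integral_mul_const]
    _ = ∫ x, ∫ p, f x * ex (-⟪x, ι p.1 + κ p.2⟫) * (starRingEnd ℂ) (G p)
          ∂((volume : Measure (E m)).prod ν) ∂(sg (m + k)) :=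
        integral_integral_swap hint
    _ = _ := by
        refine integral_congr_ae (Filter.Eventually.of_forall fun x => ?_)
        simp only
        unfold HH
        rw [← integral_conj, ← integral_const_mul]
        refine integral_congr_ae (Filter.Eventually.of_forall fun p => ?_)
        simp only
        rw [map_mul, ex_conj]
        ring

theorem csw {Ω : Type*} [MeasurableSpace Ω] (μ : Measure Ω) (a b : Ω → ℝ≥0∞) (w : Ω → ℝ)
    (ha : AEMeasurable a μ) (hb : AEMeasurable b μ) (hw : Measurable w) (hw0 : ∀ x, 0 < w x) :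
    (∫⁻ x, a x * b x ∂μ) ^ 2 ≤
      (∫⁻ x, a x ^ 2 / ENNReal.ofReal (w x) ∂μ) * ∫⁻ x, b x ^ 2 * ENNReal.ofReal (w x) ∂μ := by
  have h1 : ∀ x, ENNReal.ofReal (Real.sqrt (w x)) ^ 2 = ENNReal.ofReal (w x) := by
    intro x
    rw [← ENNReal.ofReal_pow (Real.sqrt_nonneg _), Real.sq_sqrt (hw0 x).le]
  have h2 : ∀ x, ENNReal.ofReal (Real.sqrt (w x)) ≠ 0 := fun x => by
    rw [Ne, ENNReal.ofReal_eq_zero, not_le]; exact Real.sqrt_pos.2 (hw0 x)
  have hm : Measurable fun x => ENNReal.ofReal (Real.sqrt (w x)) := hw.sqrt.ennreal_ofReal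
  have h := cs μ (fun x => a x / ENNReal.ofReal (Real.sqrt (w x)))
    (fun x => b x * ENNReal.ofReal (Real.sqrt (w x))) (ha.div hm.aemeasurable)
    (hb.mul hm.aemeasurable)
  calc (∫⁻ x, a x * b x ∂μ) ^ 2
      = (∫⁻ x, (a x / ENNReal.ofReal (Real.sqrt (w x))) *
          (b x * ENNReal.ofReal (Real.sqrt (w x))) ∂μ) ^ 2 := by
        congr 1
        refine lintegral_congr fun x => ?_
        calc a x * b x = a x * (ENNReal.ofReal (Real.sqrt (w x)) /
              ENNReal.ofReal (Real.sqrt (w x))) * b x := by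
              rw [ENNReal.div_self (h2 x) ENNReal.ofReal_ne_top, mul_one]
          _ = _ := by rw [div_eq_mul_inv, div_eq_mul_inv]; ring
    _ ≤ _ := h
    _ = _ := by
        congr 1
        · refine lintegral_congr fun x => ?_
          rw [div_eq_mul_inv, mul_pow, ← ENNReal.inv_pow, h1, ← div_eq_mul_inv]
        · refine lintegral_congr fun x => ?_
          rw [mul_pow, h1]

theorem HH_energy (ι : E m →ₗᵢ[ℝ] E (m + k)) (κ : E k →ₗᵢ[ℝ] E (m + k)) (ν : Measure (E k))
    [SFinite ν] (G : E m × E k → ℂ) (hG : Measurable G) (ρ θ : ℝ) (J : ℕ) :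
    ∫⁻ x, ‖HH ι κ ν G x‖ₑ ^ 2 * ENNReal.ofReal (Wr ρ θ J (cp κ x)) ∂(sg (m + k)) =
      ENNReal.ofReal (∫ x, ‖HH ι κ ν G x‖ ^ 2 ∂(tw ρ θ J κ)) := by
  have hm := HH_meas ι κ ν G hG
  have := tw_fin (m := m) ρ θ J κ
  rw [ofReal_integral_eq_lintegral_ofReal]
  · unfold tw
    rw [lintegral_withDensity_eq_lintegral_mul _ (tw_dens_meas ρ θ J κ)
      (hm.norm.pow_const 2).ennreal_ofReal]
    refine lintegral_congr fun x => ?_
    rw [Pi.mul_apply, ← ofReal_norm, ENNReal.ofReal_pow (norm_nonneg _), mul_comm]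
  · refine Integrable.of_bound (C := (∫ p, ‖G p‖ ∂((volume : Measure (E m)).prod ν)) ^ 2)
      (hm.norm.pow_const 2).aestronglyMeasurable (Filter.Eventually.of_forall fun x => ?_)
    rw [Real.norm_eq_abs, abs_of_nonneg (by positivity)]
    exact pow_le_pow_left₀ (norm_nonneg _) (HH_bound ι κ ν G x) 2
  · exact Filter.Eventually.of_forall fun x => by positivity

end Pool.Agent.N720.SL
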