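import Mathlib
import Pool.Agent.N720.SL.A3b
set_option autoImplicit false

/-! The weak type inequality. -/

namespace Pool.Agent.N720.SL

open MeasureTheory Set Metric Complex
open scoped ENNReal NNReal RealInnerProductSpace
open Pool.Agent.H789R2.FR (sg sg_finite sg_ae)

variable {m k : ℕ}

/-- one finite piece of a superlevel set -/
theorem piece (ι : E m →ₗᵢ[ℝ] E (m + k)) (κ : E k →ₗᵢ[ℝ] E (m + k)) (ν : Measure (E k))
    [SFinite ν] (f : E (m + k) → ℂ) (hf : Integrable f (sg (m + k))) (hTm : Measurable (TT ι κ f))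
    (S : Set (E m × E k)) (hS : MeasurableSet S)
    (hSfin : ((volume : Measure (E m)).prod ν) S ≠ ∞) (t : ℝ) (ht : 0 < t)
    (hSt : ∀ p ∈ S, t < ‖TT ι κ f p‖) (Q : ℝ≥0∞) (ρ θ : ℝ) (hρ : 0 < ρ) (J : ℕ)
    (hQ : ∫⁻ x, ‖f x‖ₑ ^ 2 / ENNReal.ofReal (Wr ρ θ J (cp κ x)) ∂(sg (m + k)) ≤ Q) :
    ∃ G : E m × E k → ℂ, Measurable G ∧ (∀ p, ‖G p‖ = S.indicator (fun _ => (1 : ℝ)) p) ∧
      (ENNReal.ofReal (t * ((volume : Measure (E m)).prod ν).real S)) ^ 2 ≤
        Q * ENNReal.ofReal (∫ x, ‖HH ι κ ν G x‖ ^ 2 ∂(tw ρ θ J κ)) := by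
  set μ : Measure (E m × E k) := (volume : Measure (E m)).prod ν with hμ
  classical
  refine ⟨S.indicator fun p => TT ι κ f p / ((‖TT ι κ f p‖ : ℝ) : ℂ), ?_, ?_, ?_⟩
  · exact (hTm.div (Complex.measurable_ofReal.comp hTm.norm)).indicator hS
  · intro p
    by_cases hp : p ∈ S
    · rw [indicator_of_mem hp, indicator_of_mem hp]
      have h1 : 0 < ‖TT ι κ f p‖ := ht.trans (hSt p hp)
      rw [norm_div, Complex.norm_real, norm_norm, div_self h1.ne']
    · rw [indicator_of_notMem hp, indicator_of_notMem hp, norm_zero]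
  set G : E m × E k → ℂ := S.indicator fun p => TT ι κ f p / ((‖TT ι κ f p‖ : ℝ) : ℂ) with hG
  have hGm : Measurable G := (hTm.div (Complex.measurable_ofReal.comp hTm.norm)).indicator hS
  have hGn : ∀ p, ‖G p‖ = S.indicator (fun _ => (1 : ℝ)) p := by
    intro p
    by_cases hp : p ∈ S
    · rw [hG, indicator_of_mem hp, indicator_of_mem hp]
      have h1 : 0 < ‖TT ι κ f p‖ := ht.trans (hSt p hp)
      rw [norm_div, Complex.norm_real, norm_norm, div_self h1.ne']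
    · rw [hG, indicator_of_notMem hp, indicator_of_notMem hp, norm_zero]
  have hGint : Integrable G μ := by
    have h1 : Integrable (S.indicator (fun _ => (1 : ℝ))) μ :=
      (integrable_indicator_iff hS).2 (integrableOn_const hSfin)
    refine h1.mono hGm.aestronglyMeasurable (Filter.Eventually.of_forall fun p => ?_)
    rw [hGn p]
    exact Real.le_norm_self _
  have hd := dual ι κ ν f hf G hGm hGint
  have hleft : ∫ p, TT ι κ f p * (starRingEnd ℂ) (G p) ∂μ =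
      ((∫ p in S, ‖TT ι κ f p‖ ∂μ : ℝ) : ℂ) := by
    rw [← integral_indicator hS, ← integral_complex_ofReal]
    refine integral_congr_ae (Filter.Eventually.of_forall fun p => ?_)
    simp only
    by_cases hp : p ∈ S
    · rw [indicator_of_mem hp, hG, indicator_of_mem hp, map_div₀, Complex.conj_ofReal,
        mul_div_assoc', Complex.mul_conj, Complex.normSq_eq_norm_sq]
      have h1 : 0 < ‖TT ι κ f p‖ := ht.trans (hSt p hp)
      rw [← Complex.ofReal_div]
      congr 1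
      field_simp
    · rw [indicator_of_notMem hp, hG, indicator_of_notMem hp]
      simp
  have hlow : t * μ.real S ≤ ∫ p in S, ‖TT ι κ f p‖ ∂μ := by
    have h1 : ∫ _p in S, t ∂μ = t * μ.real S := by
      rw [setIntegral_const, smul_eq_mul, mul_comm]
    rw [← h1]
    refine setIntegral_mono_on (integrableOn_const hSfin) ?_ hS fun p hp => (hSt p hp).le
    have hb : ∀ p, ‖TT ι κ f p‖ ≤ ∫ x, ‖f x‖ ∂(sg (m + k)) := by
      intro p
      unfold TT
      refine (norm_integral_le_integral_norm _).trans (le_of_eq ?_)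
      refine integral_congr_ae (Filter.Eventually.of_forall fun x => ?_)
      simp only
      rw [norm_mul, ex_norm, mul_one]
    refine Measure.integrableOn_of_bounded (M := ∫ x, ‖f x‖ ∂(sg (m + k))) hSfin
      hTm.norm.aestronglyMeasurable ?_
    refine Filter.Eventually.of_forall fun p => ?_
    rw [norm_norm]
    exact hb p
  have h1 : ENNReal.ofReal (t * μ.real S) ≤
      ∫⁻ x, ‖f x‖ₑ * ‖HH ι κ ν G x‖ₑ ∂(sg (m + k)) := by
    calc ENNReal.ofReal (t * μ.real S) ≤ ENNReal.ofReal (∫ p in S, ‖TT ι κ f p‖ ∂μ) :=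
          ENNReal.ofReal_le_ofReal hlow
      _ ≤ ‖∫ p, TT ι κ f p * (starRingEnd ℂ) (G p) ∂μ‖ₑ := by
          rw [hleft, ← ofReal_norm, Complex.norm_real, Real.norm_eq_abs]
          exact ENNReal.ofReal_le_ofReal (le_abs_self _)
      _ = ‖∫ x, f x * (starRingEnd ℂ) (HH ι κ ν G x) ∂(sg (m + k))‖ₑ := by rw [hd]
      _ ≤ ∫⁻ x, ‖f x * (starRingEnd ℂ) (HH ι κ ν G x)‖ₑ ∂(sg (m + k)) :=
          enorm_integral_le_lintegral_enorm _
      _ = _ := by
          refine lintegral_congr fun x => ?_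
          rw [enorm_mul]
          congr 1
          rw [← ofReal_norm, RCLike.norm_conj, ofReal_norm]
  have hHm := HH_meas ι κ ν G hGm
  have h2 := csw (sg (m + k)) (fun x => ‖f x‖ₑ) (fun x => ‖HH ι κ ν G x‖ₑ)
    (fun x => Wr ρ θ J (cp κ x)) hf.aestronglyMeasurable.enorm hHm.enorm.aemeasurable
    (((Wr_cont ρ θ J).comp (cp_cont κ)).measurable) (fun x => Wr_pos hρ J _)
  calc (ENNReal.ofReal (t * μ.real S)) ^ 2
      ≤ (∫⁻ x, ‖f x‖ₑ * ‖HH ι κ ν G x‖ₑ ∂(sg (m + k))) ^ 2 := pow_le_pow_left' h1 2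
    _ ≤ _ := h2
    _ ≤ _ := by
        rw [HH_energy ι κ ν G hGm ρ θ J]
        exact mul_le_mul_left hQ _

/-- the weak type inequality -/
theorem weak (hKER : S_KER) (hDEC : S_DEC) (hDOM : S_DOM) (hWB : S_WB)
    (hSLI : S_SLICE) (hHOL : S_HOL) (hk : 1 ≤ k) (hn : 2 ≤ m + k) (α θ κ₁ : ℝ)
    (hFIB : FibK k α θ κ₁) (hθ : 0 ≤ θ) (hθ1 : θ ≤ 1) (s : ℝ≥0∞)
    (hs : 2 ≤ s) (hθs : θ = 0 ∨ θ < k * (1 - 2 * (s⁻¹).toReal)) (A : ℝ) (hA : 0 ≤ A) :
    ∃ c K : ℝ, 0 < c ∧ 0 ≤ K ∧ ∀ (ι : E m →ₗᵢ[ℝ] E (m + k))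
      (κ : E k →ₗᵢ[ℝ] E (m + k)), (∀ y w, ⟪ι y, κ w⟫ = 0) → ∀ (ν : Measure (E k)),
      Growth ν α A → ∀ f : E (m + k) → ℂ, MemLp f s (sg (m + k)) →
      (∀ p, ‖TT ι κ f p‖ₑ ≤ ENNReal.ofReal c * eLpNorm f s (sg (m + k))) ∧
      (eLpNorm f s (sg (m + k)) ≠ 0 → ∀ t : ℝ, 0 < t →
        ((volume : Measure (E m)).prod ν) {p | ENNReal.ofReal t < ‖TT ι κ f p‖ₑ} ≤
        ENNReal.ofReal (K * (t / (eLpNorm f s (sg (m + k))).toReal) ^
          (-(2 + 2 * κ₁ / ((((m + k : ℕ) : ℝ) - 1) / 2))))) := by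
  obtain ⟨a, b, ha, hb, hen⟩ := energy (m := m) hKER hDEC hDOM hWB hSLI hn α θ κ₁ hFIB hθ hθ1
  obtain ⟨Ch, hCh⟩ := hHOL m k hk hn θ s hθ hθ1 hs hθs
  have hnR : (2 : ℝ) ≤ ((m + k : ℕ) : ℝ) := by exact_mod_cast hn
  set c : ℝ := ((sg (m + k)) univ ^ (1 / (1 : ℝ≥0∞).toReal - 1 / s.toReal)).toReal + 1 with hc
  have hc0 : 0 < c := by positivity
  set d : ℝ := (((m + k : ℕ) : ℝ) - 1) / 2 with hd
  have hd0 : 0 < d := by simp only [hd]; linarith
  have hCh0 : (0 : ℝ) ≤ Ch := Ch.2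
  obtain ⟨K, hK0, hK⟩ := optim d κ₁ ((Ch + 1) * a) ((Ch + 1) * (b * A)) hd0 (by positivity)
    (by positivity) c ((m + k : ℕ) : ℝ) hc0 (by linarith)
  refine ⟨c, K, hc0, hK0, ?_⟩
  intro ι κ ho ν hgr f hf
  have hsf : SigmaFinite ν := growth_sf hgr
  have hs1 : (1 : ℝ≥0∞) ≤ s := le_trans (by norm_num) hs
  have hfint : Integrable f (sg (m + k)) := memLp_one_iff_integrable.1 (hf.mono_exponent hs1)
  set F : ℝ≥0∞ := eLpNorm f s (sg (m + k)) with hF
  have hFtop : F ≠ ∞ := hf.eLpNorm_ne_top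
  have hsup : ∀ p, ‖TT ι κ f p‖ₑ ≤ ENNReal.ofReal c * F := by
    intro p
    refine (TT_bound ι κ f p).trans ?_
    have h2 := eLpNorm_le_eLpNorm_mul_rpow_measure_univ hs1 hf.aestronglyMeasurable
    refine h2.trans ?_
    rw [mul_comm]
    refine mul_le_mul_left ?_ _
    have h3 : (sg (m + k)) univ ^ (1 / (1 : ℝ≥0∞).toReal - 1 / s.toReal) ≠ ∞ := by
      refine ENNReal.rpow_ne_top_of_nonneg ?_ (measure_ne_top _ _)
      rw [ENNReal.toReal_one, div_one, sub_nonneg]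
      rcases eq_or_ne s ∞ with h | h
      · rw [h]; simp
      · have : 1 ≤ s.toReal := by
          rw [← ENNReal.toReal_one]
          exact ENNReal.toReal_mono h hs1
        rw [div_le_one (by linarith)]
        exact this
    rw [← ENNReal.ofReal_toReal h3]
    exact ENNReal.ofReal_le_ofReal (by rw [hc]; linarith)
  refine ⟨hsup, ?_⟩
  intro hF0 t ht
  have hFr : 0 < F.toReal := ENNReal.toReal_pos hF0 hFtop
  set μ : Measure (E m × E k) := (volume : Measure (E m)).prod ν with hμ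
  set U : Set (E m × E k) := {p | ENNReal.ofReal t < ‖TT ι κ f p‖ₑ} with hU
  have hTm : Measurable (TT ι κ f) := TT_meas ι κ f hf.aestronglyMeasurable
  have hUm : MeasurableSet U := measurableSet_lt measurable_const hTm.enorm
  rcases lt_or_ge (c * F.toReal) t with hbig | hsmall
  · have : U = ∅ := by
      rw [eq_empty_iff_forall_notMem]
      intro p hp
      have h1 : ENNReal.ofReal t < ‖TT ι κ f p‖ₑ := hp
      have h2 := h1.trans_le (hsup p)
      rw [← ENNReal.ofReal_toReal hFtop, ← ENNReal.ofReal_mul hc0.le] at h2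
      exact absurd ((ENNReal.ofReal_lt_ofReal_iff_of_nonneg ht.le).1 h2) (by
        rw [not_lt]; exact hbig.le)
    rw [this, measure_empty]
    exact zero_le
  set t' : ℝ := t / F.toReal with ht'
  have ht'0 : 0 < t' := by positivity
  have ht'c : t' ≤ c := by rw [ht', div_le_iff₀ hFr]; exact hsmall
  -- finite pieces
  have hpiece : ∀ S : Set (E m × E k), MeasurableSet S → S ⊆ U → μ S ≠ ∞ →
      μ S ≤ ENNReal.ofReal (K * t' ^ (-(2 + 2 * κ₁ / d))) := by
    intro S hS hSU hSfin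
    rw [← ofReal_measureReal hSfin]
    refine ENNReal.ofReal_le_ofReal ?_
    set N : ℝ := μ.real S with hN
    have hN0 : 0 ≤ N := measureReal_nonneg
    refine hK N t' hN0 ht'0 ht'c ?_
    intro ρ hρ
    have hρ1 : 1 ≤ ρ := by linarith
    have hρ0 : 0 < ρ := by linarith
    obtain ⟨J, hJ⟩ := adm_exists θ hθ hθ1 ρ hρ1
    have hTpos : ∀ p ∈ S, t < ‖TT ι κ f p‖ := by
      intro p hp
      have h1 : ENNReal.ofReal t < ‖TT ι κ f p‖ₑ := hSU hp
      rw [← ofReal_norm] at h1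
      exact (ENNReal.ofReal_lt_ofReal_iff_of_nonneg ht.le).1 h1
    have hQ := hCh ι κ ho ρ J hρ1 hJ f hf.aestronglyMeasurable
    obtain ⟨G, hGm, hGn, hG⟩ := piece ι κ ν f hfint hTm S hS hSfin t ht hTpos _ ρ θ hρ0 J hQ
    have hen1 := hen A hA ι κ ho ν inferInstance hgr S hS hSfin G hGm hGn ρ J hρ hJ
    rw [← hN] at hen1
    rw [← hF] at hG
    have h4 : (t * N) ^ 2 ≤ Ch * F.toReal ^ 2 *
        (a * ρ ^ (-d) * N ^ 2 + b * A * ρ ^ κ₁ * N) := by
      have h5 : ENNReal.ofReal ((t * N) ^ 2) ≤ ENNReal.ofReal (Ch * F.toReal ^ 2 *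
          (a * ρ ^ (-d) * N ^ 2 + b * A * ρ ^ κ₁ * N)) := by
        rw [ENNReal.ofReal_pow (by positivity)]
        refine hG.trans ?_
        rw [ENNReal.ofReal_mul (by positivity), ENNReal.ofReal_mul (by positivity),
          ENNReal.ofReal_pow ENNReal.toReal_nonneg, ENNReal.ofReal_toReal hFtop,
          ENNReal.ofReal_coe_nnreal]
        exact mul_le_mul_right (ENNReal.ofReal_le_ofReal hen1) _
      exact (ENNReal.ofReal_le_ofReal_iff (by positivity)).1 h5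
    have h6 : t' ^ 2 * N ^ 2 ≤ Ch * (a * ρ ^ (-d) * N ^ 2 + b * A * ρ ^ κ₁ * N) := by
      rw [ht', div_pow, div_mul_eq_mul_div, div_le_iff₀ (by positivity)]
      calc t ^ 2 * N ^ 2 = (t * N) ^ 2 := by ring
        _ ≤ _ := h4
        _ = _ := by ring
    have h7 : 0 ≤ a * ρ ^ (-d) * N ^ 2 + b * A * ρ ^ κ₁ * N := by positivity
    calc t' ^ 2 * N ^ 2 ≤ Ch * (a * ρ ^ (-d) * N ^ 2 + b * A * ρ ^ κ₁ * N) := h6
      _ ≤ (Ch + 1) * (a * ρ ^ (-d) * N ^ 2 + b * A * ρ ^ κ₁ * N) := by linarith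
      _ = _ := by ring
  -- exhaustion
  set D : ℕ → Set (E m × E k) := fun R => ball 0 (R : ℝ) ×ˢ ball 0 (R : ℝ) with hD
  have hmono : Monotone fun R => U ∩ D R := by
    intro R R' h
    refine inter_subset_inter_right _ (prod_mono ?_ ?_) <;>
      exact ball_subset_ball (by exact_mod_cast h)
  have hU2 : U = ⋃ R, U ∩ D R := by
    rw [← inter_iUnion]
    refine (inter_eq_left.2 fun p _ => ?_).symm
    rw [mem_iUnion]
    obtain ⟨R, hR⟩ := exists_nat_gt (max ‖p.1‖ ‖p.2‖)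
    refine ⟨R, ?_, ?_⟩
    · rw [mem_ball_zero_iff]; exact (le_max_left _ _).trans_lt hR
    · rw [mem_ball_zero_iff]; exact (le_max_right _ _).trans_lt hR
  rw [hU2, hmono.measure_iUnion]
  refine iSup_le fun R => hpiece _ (hUm.inter (measurableSet_ball.prod measurableSet_ball))
    inter_subset_left ?_
  refine ne_of_lt (lt_of_le_of_lt (measure_mono inter_subset_right) ?_)
  rw [hμ, hD]
  simp only
  rw [Measure.prod_prod]
  exact ENNReal.mul_lt_top measure_ball_lt_top (growth_ball hgr 0 R)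

end Pool.Agent.N720.SL
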