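import Mathlib
import Pool.Agent.N720.SL.A3
set_option autoImplicit false

/-! The strong type inequality on cylinders. -/

namespace Pool.Agent.N720.SL

open MeasureTheory Set Metric Complex
open scoped ENNReal NNReal RealInnerProductSpace
open Pool.Agent.H789R2.FR (sg sg_finite sg_ae)

variable {m k : ℕ}

/-- choice of the parameters -/
theorem params (n k : ℝ) (hn : 2 ≤ n) (hk : 1 ≤ k) (α u q : ℝ) (hα : 0 ≤ α) (hu1 : u ≤ 1 / 2)
    (hq : 2 + 4 / (n - 1) * max 0 (max (α - (k - 1) / 2) (1 + α / 2 - k + k * u)) < q) :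
    ∃ β θ : ℝ, 0 < β ∧ α - (k - 1) / 2 ≤ β ∧ 0 ≤ θ ∧ θ ≤ 1 ∧
      (θ = 0 ∨ θ < k * (1 - 2 * u)) ∧
      2 + 2 * max β ((α - k + 2 - θ) / 2) / ((n - 1) / 2) < q := by
  set K : ℝ := max 0 (max (α - (k - 1) / 2) (1 + α / 2 - k + k * u)) with hK
  have hK0 : 0 ≤ K := le_max_left _ _
  have hK1 : α - (k - 1) / 2 ≤ K := (le_max_left _ _).trans (le_max_right _ _)
  have hK2 : 1 + α / 2 - k + k * u ≤ K := (le_max_right _ _).trans (le_max_right _ _)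
  have hn1 : 0 < n - 1 := by linarith
  set ε : ℝ := (q - 2) * (n - 1) / 4 - K with hε
  have hε0 : 0 < ε := by
    have h1 : 4 / (n - 1) * K < q - 2 := by linarith
    rw [div_mul_eq_mul_div, div_lt_iff₀ hn1] at h1
    rw [hε]; linarith
  have hfin : ∀ β θ : ℝ, max β ((α - k + 2 - θ) / 2) < K + ε →
      2 + 2 * max β ((α - k + 2 - θ) / 2) / ((n - 1) / 2) < q := by
    intro β θ h
    have h2 : 2 * max β ((α - k + 2 - θ) / 2) / ((n - 1) / 2) < q - 2 := by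
      rw [div_lt_iff₀ (by linarith)]
      have : K + ε = (q - 2) * (n - 1) / 4 := by rw [hε]; ring
      rw [this] at h
      linarith
    linarith
  rcases hu1.eq_or_lt with hu | hu
  · refine ⟨K + ε / 2, 0, by linarith, by linarith, le_rfl, zero_le_one, Or.inl rfl, hfin _ _ ?_⟩
    refine max_lt (by linarith) ?_
    have : (α - k + 2 - 0) / 2 = 1 + α / 2 - k + k * u := by rw [hu]; ring
    rw [this]; linarith
  · set θm : ℝ := k * (1 - 2 * u) with hθm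
    have hθm0 : 0 < θm := mul_pos (by linarith) (by linarith)
    set η : ℝ := min ε (θm / 2) with hη
    have hη0 : 0 < η := lt_min hε0 (by linarith)
    have hη1 : η ≤ ε := min_le_left _ _
    have hη2 : η ≤ θm / 2 := min_le_right _ _
    refine ⟨K + ε / 2, min 1 (θm - η), by linarith, by linarith, ?_, min_le_left _ _,
      Or.inr ((min_le_right _ _).trans_lt (by linarith)), hfin _ _ ?_⟩
    · exact le_min zero_le_one (by linarith)
    · refine max_lt (by linarith) ?_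
      rcases le_total 1 (θm - η) with h | h
      · rw [min_eq_left h]
        linarith
      · rw [min_eq_right h]
        have : (α - k + 2 - (θm - η)) / 2 = 1 + α / 2 - k + k * u + η / 2 := by
          rw [hθm]; ring
        rw [this]; linarith

theorem strong0 (hKER : S_KER) (hDEC : S_DEC) (hDOM : S_DOM) (hWB : S_WB)
    (hSLI : S_SLICE) (hHOL : S_HOL) (hWS : S_WS) (hk : 1 ≤ k) (hn : 2 ≤ m + k) (α θ κ₁ : ℝ)
    (hFIB : FibK k α θ κ₁) (hκ₁ : 0 ≤ κ₁) (hθ : 0 ≤ θ) (hθ1 : θ ≤ 1) (s : ℝ≥0∞)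
    (hs : 2 ≤ s) (hθs : θ = 0 ∨ θ < k * (1 - 2 * (s⁻¹).toReal)) (A : ℝ) (hA : 0 ≤ A) (q : ℝ)
    (hpq : 2 + 2 * κ₁ / ((((m + k : ℕ) : ℝ) - 1) / 2) < q) :
    ∃ C : ℝ≥0, ∀ (ι : E m →ₗᵢ[ℝ] E (m + k)) (κ : E k →ₗᵢ[ℝ] E (m + k)),
      (∀ y w, ⟪ι y, κ w⟫ = 0) → ∀ (ν : Measure (E k)), Growth ν α A →
      ∀ f : E (m + k) → ℂ, MemLp f s (sg (m + k)) →
      ∫⁻ p, ‖TT ι κ f p‖ₑ ^ q ∂((volume : Measure (E m)).prod ν) ≤
        C * eLpNorm f s (sg (m + k)) ^ q := by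
  have hnR : (2 : ℝ) ≤ ((m + k : ℕ) : ℝ) := by exact_mod_cast hn
  obtain ⟨c, K, hc, hK, hweak⟩ := weak (m := m) hKER hDEC hDOM hWB hSLI hHOL hk hn α θ κ₁ hFIB
    hθ hθ1 s hs hθs A hA
  set p : ℝ := 2 + 2 * κ₁ / ((((m + k : ℕ) : ℝ) - 1) / 2) with hp
  have hp0 : 0 < p := by
    have h2 : (0 : ℝ) < (((m + k : ℕ) : ℝ) - 1) / 2 := by linarith
    positivity
  have hq0 : 0 < q := hp0.trans hpq
  obtain ⟨C, hC⟩ := hWS p q hp0 hpq
  refine ⟨C * (K * c ^ (-p)).toNNReal * (c ^ q).toNNReal, ?_⟩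
  intro ι κ ho ν hgr f hf
  obtain ⟨hsup, hw⟩ := hweak ι κ ho ν hgr f hf
  have hTm : Measurable (TT ι κ f) := TT_meas ι κ f hf.aestronglyMeasurable
  set F : ℝ≥0∞ := eLpNorm f s (sg (m + k)) with hF
  have hFtop : F ≠ ∞ := hf.eLpNorm_ne_top
  rcases eq_or_ne F 0 with hF0 | hF0
  · have h0 : ∀ z, ‖TT ι κ f z‖ₑ = 0 := by
      intro z
      have := hsup z
      rw [hF0, mul_zero] at this
      exact le_antisymm this zero_le
    simp_rw [h0]
    rw [ENNReal.zero_rpow_of_pos hq0, lintegral_zero]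
    exact zero_le
  have hFr : 0 < F.toReal := ENNReal.toReal_pos hF0 hFtop
  set M : ℝ≥0 := c.toNNReal * F.toNNReal with hM
  have hM1 : (M : ℝ≥0∞) = ENNReal.ofReal c * F := by
    rw [hM, ENNReal.coe_mul, ENNReal.coe_toNNReal hFtop]
    rfl
  have h1 := hC ((volume : Measure (E m)).prod ν) (fun z => ‖TT ι κ f z‖ₑ)
    (K * c ^ (-p)).toNNReal M hTm.enorm (fun z => by rw [hM1]; exact hsup z) ?_
  · refine h1.trans (le_of_eq ?_)
    rw [hM1, ENNReal.mul_rpow_of_nonneg _ _ hq0.le, ENNReal.ofReal_rpow_of_pos hc]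
    push_cast
    rw [ENNReal.ofReal]
    ring
  · intro t ht
    refine (hw hF0 t ht).trans (le_of_eq ?_)
    rw [hM1, ENNReal.mul_rpow_of_nonneg _ _ hp0.le, ENNReal.ofReal_rpow_of_pos hc,
      ENNReal.ofReal_rpow_of_pos ht, ← ENNReal.ofReal_toReal hFtop, ENNReal.ofReal_rpow_of_pos hFr]
    rw [show ((K * c ^ (-p)).toNNReal : ℝ≥0∞) = ENNReal.ofReal (K * c ^ (-p)) from rfl]
    rw [← ENNReal.ofReal_mul (by positivity), ← ENNReal.ofReal_mul (by positivity),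
      ← ENNReal.ofReal_div_of_pos (by positivity)]
    congr 1
    rw [ENNReal.toReal_ofReal hFr.le, Real.div_rpow ht.le hFr.le, Real.rpow_neg ht.le,
      Real.rpow_neg hFr.le, Real.rpow_neg hc.le]
    have e1 : 0 < c ^ p := Real.rpow_pos_of_pos hc _
    have e2 : 0 < t ^ p := Real.rpow_pos_of_pos ht _
    have e3 : 0 < F.toReal ^ p := Real.rpow_pos_of_pos hFr _
    field_simp

theorem strong (hKER : S_KER) (hDEC : S_DEC) (hDOM : S_DOM) (hWB : S_WB) (hBALL : S_BALL)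
    (hFIB : S_FIB) (hSLI : S_SLICE) (hHOL : S_HOL) (hWS : S_WS) (hk : 1 ≤ k) (hn : 2 ≤ m + k)
    (α : ℝ) (hα : 0 ≤ α) (s : ℝ≥0∞) (hs : 2 ≤ s) (A : ℝ) (hA : 0 ≤ A) (q : ℝ)
    (hq : 2 + 4 / (((m + k : ℕ) : ℝ) - 1) *
      min 1 (max 0 (max (α - ((k : ℝ) - 1) / 2) (1 + α / 2 - k + k * (s⁻¹).toReal))) < q) :
    ∃ C : ℝ≥0, ∀ (ι : E m →ₗᵢ[ℝ] E (m + k)) (κ : E k →ₗᵢ[ℝ] E (m + k)),
      (∀ y w, ⟪ι y, κ w⟫ = 0) → ∀ (ν : Measure (E k)), Growth ν α A →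
      ∀ f : E (m + k) → ℂ, MemLp f s (sg (m + k)) →
      ∫⁻ p, ‖TT ι κ f p‖ₑ ^ q ∂((volume : Measure (E m)).prod ν) ≤
        C * eLpNorm f s (sg (m + k)) ^ q := by
  have hnR : (2 : ℝ) ≤ ((m + k : ℕ) : ℝ) := by exact_mod_cast hn
  have hkR : (1 : ℝ) ≤ (k : ℝ) := by exact_mod_cast hk
  have hsinv : (s⁻¹).toReal ≤ 1 / 2 := by
    have h1 : s⁻¹ ≤ (2 : ℝ≥0∞)⁻¹ := ENNReal.inv_le_inv.2 hs
    have h2 := ENNReal.toReal_mono (by simp) h1
    simpa using h2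
  rcases min_choice 1 (max 0 (max (α - ((k : ℝ) - 1) / 2) (1 + α / 2 - k + k * (s⁻¹).toReal)))
    with h | h
  · rw [h] at hq
    refine strong0 (m := m) hKER hDEC hDOM hWB hSLI hHOL hWS hk hn α 0 1 (fib_one hBALL k α hα)
      zero_le_one le_rfl zero_le_one s hs (Or.inl rfl) A hA q ?_
    have hn1 : (0 : ℝ) < ((m + k : ℕ) : ℝ) - 1 := by linarith
    calc _ = 2 + 4 / (((m + k : ℕ) : ℝ) - 1) * 1 := by field_simp; ring
      _ < q := hq
  · rw [h] at hq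
    obtain ⟨β, θ, hβ, hβα, hθ, hθ1, hθs, hpq⟩ := params ((m + k : ℕ) : ℝ) k hnR hkR α
      (s⁻¹).toReal q hα hsinv hq
    exact strong0 (m := m) hKER hDEC hDOM hWB hSLI hHOL hWS hk hn α θ
      (max β ((α - k + 2 - θ) / 2)) (hFIB k hk α β θ hα hβ hβα hθ hθ1)
      (le_max_of_le_left hβ.le) hθ hθ1 s hs hθs A hA q hpq

end Pool.Agent.N720.SL
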