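import Mathlib
import Pool.Agent.N720.SL.A4
import Pool.Agent.N720.SL.Stm2
import Pool.Agent.N327.CY_GAU
import Pool.Agent.N319.CY.Ball
import Pool.Agent.N951.CY.Ann
import Pool.Agent.N415.CY.FIB
import Pool.Agent.N415.CY.WS
import Pool.Agent.N545.CY_SLICE
import Pool.Agent.N603.CY.Dom
import Pool.Agent.N614.CY.KER
import Pool.Agent.N702.CY.Dec
import Pool.Agent.N702.CY.Wb
import Pool.Agent.N702.CY.Hol
import Pool.Agent.N521.SL.KNAPP
set_option autoImplicit false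

/-! Unconditional forms of the inequalities on cylinders. -/

namespace Pool.Agent.N720.SL

open MeasureTheory Set Metric Complex
open scoped ENNReal NNReal RealInnerProductSpace
open Pool.Agent.H789R2.FR (sg sg_finite sg_ae)

variable {m k : ℕ}

theorem ball' : S_BALL := Pool.Agent.N319.CY.main Pool.Agent.N327.CY_GAU.main

theorem fib' : S_FIB :=
  Pool.Agent.N415.CYFIB.main ball'
    (Pool.Agent.N951.CY.main Pool.Agent.N327.CY_GAU.main Pool.Agent.N319.CY.sch)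

/-- iterated integrals -/
theorem iter (ι : E m →ₗᵢ[ℝ] E (m + k)) (κ : E k →ₗᵢ[ℝ] E (m + k)) (ν : Measure (E k)) [SFinite ν]
    (f : E (m + k) → ℂ) (hf : AEStronglyMeasurable f (sg (m + k))) (q : ℝ) :
    ∫⁻ w, (∫⁻ y : E m, ‖TT ι κ f (y, w)‖ₑ ^ q) ∂ν =
      ∫⁻ p, ‖TT ι κ f p‖ₑ ^ q ∂((volume : Measure (E m)).prod ν) := by
  rw [lintegral_prod_symm']
  exact (TT_meas ι κ f hf).enorm.pow_const q

/-- the strong type inequality, unconditional -/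
theorem strong' (hk : 1 ≤ k) (hn : 2 ≤ m + k) (α : ℝ) (hα : 0 ≤ α) (s : ℝ≥0∞) (hs : 2 ≤ s)
    (A : ℝ) (q : ℝ)
    (hq : 2 + 4 / (((m + k : ℕ) : ℝ) - 1) *
      min 1 (max 0 (max (α - ((k : ℝ) - 1) / 2) (1 + α / 2 - k + k * (s⁻¹).toReal))) < q) :
    ∃ C : ℝ≥0, ∀ (ι : E m →ₗᵢ[ℝ] E (m + k)) (κ : E k →ₗᵢ[ℝ] E (m + k)),
      (∀ y w, ⟪ι y, κ w⟫ = 0) → ∀ (ν : Measure (E k)), Growth ν α A →
      ∀ f : E (m + k) → ℂ, MemLp f s (sg (m + k)) →
      ∫⁻ w, (∫⁻ y : E m, ‖TT ι κ f (y, w)‖ₑ ^ q) ∂ν ≤ C * eLpNorm f s (sg (m + k)) ^ q := by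
  obtain ⟨C, hC⟩ := strong (m := m) Pool.Agent.N614.CY.KER.main Pool.Agent.N702.CY.Dec.main
    Pool.Agent.N603.CY.Dom.main Pool.Agent.N702.CY.Wb.wb ball' fib' Pool.Agent.N545.CYSLICE.main
    Pool.Agent.N702.CY.Hol.main Pool.Agent.N415.CYWS.main hk hn α hα s hs (max A 0)
    (le_max_right _ _) q hq
  refine ⟨C, fun ι κ ho ν hgr f hf => ?_⟩
  have hgr' : Growth ν α (max A 0) := by
    intro w R hR
    refine (hgr w R hR).trans (ENNReal.ofReal_le_ofReal ?_)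
    exact mul_le_mul_of_nonneg_right (le_max_left _ _) (Real.rpow_nonneg (by linarith) _)
  have hsf : SigmaFinite ν := growth_sf hgr'
  rw [iter ι κ ν f hf.aestronglyMeasurable]
  exact hC ι κ ho ν hgr' f hf

/-- the weak type inequality for `L²` data, unconditional -/
theorem weak' (hk : 1 ≤ k) (hk2 : k ≤ 2) (hn : 2 ≤ m + k) (α : ℝ) (hα : 0 < α) (hα1 : α ≤ 1)
    (A : ℝ) :
    ∃ C : ℝ≥0, ∀ (ι : E m →ₗᵢ[ℝ] E (m + k)) (κ : E k →ₗᵢ[ℝ] E (m + k)),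
      (∀ y w, ⟪ι y, κ w⟫ = 0) → ∀ (ν : Measure (E k)), Growth ν α A →
      ∀ f : E (m + k) → ℂ, MemLp f 2 (sg (m + k)) → ∀ t : ℝ≥0, 0 < t →
      ((volume : Measure (E m)).prod ν) {p | (t : ℝ≥0∞) < ‖TT ι κ f p‖ₑ} ≤
        C * (eLpNorm f 2 (sg (m + k)) / t) ^
          (2 + 2 * (α - k + 2) / (((m + k : ℕ) : ℝ) - 1)) := by
  have hnR : (2 : ℝ) ≤ ((m + k : ℕ) : ℝ) := by exact_mod_cast hn
  have hkR : (1 : ℝ) ≤ (k : ℝ) := by exact_mod_cast hk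
  have hkR2 : (k : ℝ) ≤ 2 := by exact_mod_cast hk2
  set β : ℝ := (α - k + 2) / 2 with hβ
  have hβ0 : 0 < β := by rw [hβ]; linarith
  have hβ1 : α - ((k : ℝ) - 1) / 2 ≤ β := by rw [hβ]; linarith
  have hFIB : FibK k α 0 β := by
    obtain ⟨C, hC0, hC⟩ := fib' k hk α β 0 hα.le hβ0 hβ1 le_rfl zero_le_one
    refine ⟨C, hC0, ?_⟩
    intro A ν hA hν hgr δ r hδ hδ1 hr hr2 g hg hgi
    have h1 := hC A ν hA hν hgr δ r hδ hδ1 hr hr2 g hg hgi
    have h2 : max β ((α - k + 2 - 0) / 2) = β := by rw [sub_zero, ← hβ, max_self]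
    rw [h2] at h1
    exact h1
  obtain ⟨c, K, hc, hK, hweak⟩ := weak (m := m) Pool.Agent.N614.CY.KER.main
    Pool.Agent.N702.CY.Dec.main Pool.Agent.N603.CY.Dom.main Pool.Agent.N702.CY.Wb.wb
    Pool.Agent.N545.CYSLICE.main Pool.Agent.N702.CY.Hol.main hk hn α 0 β hFIB le_rfl zero_le_one 2
    le_rfl (Or.inl rfl) (max A 0) (le_max_right _ _)
  have hn1 : (0 : ℝ) < ((m + k : ℕ) : ℝ) - 1 := by linarith
  have hp : 2 + 2 * β / ((((m + k : ℕ) : ℝ) - 1) / 2) =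
      2 + 2 * (α - k + 2) / (((m + k : ℕ) : ℝ) - 1) := by
    rw [hβ]; field_simp
  rw [hp] at hweak
  set p : ℝ := 2 + 2 * (α - k + 2) / (((m + k : ℕ) : ℝ) - 1) with hpdef
  have hp0 : 0 < p := by
    have : 0 ≤ 2 * (α - k + 2) / (((m + k : ℕ) : ℝ) - 1) :=
      div_nonneg (by linarith) hn1.le
    linarith
  refine ⟨K.toNNReal, fun ι κ ho ν hgr f hf t ht => ?_⟩
  have hgr' : Growth ν α (max A 0) := by
    intro w R hR
    refine (hgr w R hR).trans (ENNReal.ofReal_le_ofReal ?_)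
    exact mul_le_mul_of_nonneg_right (le_max_left _ _) (Real.rpow_nonneg (by linarith) _)
  obtain ⟨hsup, hw⟩ := hweak ι κ ho ν hgr' f hf
  set F : ℝ≥0∞ := eLpNorm f 2 (sg (m + k)) with hF
  have hFtop : F ≠ ∞ := hf.eLpNorm_ne_top
  have htt : ENNReal.ofReal (t : ℝ) = (t : ℝ≥0∞) := ENNReal.ofReal_coe_nnreal
  rcases eq_or_ne F 0 with hF0 | hF0
  · have : {z | (t : ℝ≥0∞) < ‖TT ι κ f z‖ₑ} = ∅ := by
      rw [eq_empty_iff_forall_notMem]
      intro z hz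
      have h1 : (t : ℝ≥0∞) < ‖TT ι κ f z‖ₑ := hz
      have h2 := hsup z
      rw [hF0, mul_zero] at h2
      have h3 := h1.trans_le h2
      exact absurd h3 (by simp)
    rw [this, measure_empty]
    exact zero_le
  have hFr : 0 < F.toReal := ENNReal.toReal_pos hF0 hFtop
  have ht0 : (0 : ℝ) < t := ht
  have h1 := hw hF0 t ht0
  rw [htt] at h1
  refine h1.trans (le_of_eq ?_)
  have h2 : F / (t : ℝ≥0∞) = ENNReal.ofReal (F.toReal / t) := by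
    rw [ENNReal.ofReal_div_of_pos ht0, ENNReal.ofReal_toReal hFtop, htt]
  rw [h2, ENNReal.ofReal_rpow_of_pos (by positivity),
    show ((K.toNNReal : ℝ≥0) : ℝ≥0∞) = ENNReal.ofReal K from rfl, ← ENNReal.ofReal_mul hK]
  congr 2
  rw [Real.rpow_neg (by positivity), Real.div_rpow ht0.le hFr.le, Real.div_rpow hFr.le ht0.le,
    inv_div]

end Pool.Agent.N720.SL
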